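import Pool.Agent.Lib.MP_1d2f05_al.Mean

set_option autoImplicit false

namespace Pool.Agent.Lib.MP_1d2f05_al

open Function Filter Topology

theorem hasMean_cyc (G : Type) [Group G] (a : G) (ha : Subgroup.closure {a} = ⊤) :
    HasMean G := by
  classical
  let μ : ℕ → Set G → ℝ := fun k A =>
    (∑ j ∈ Finset.range (k + 1), if a ^ j ∈ A then (1 : ℝ) else 0) / (k + 1)
  refine hasMean_of_approx (atTop : Filter ℕ) μ (fun k A => ?_) (fun k A => ?_) ?_ ?_ ?_
  · exact div_nonneg (Finset.sum_nonneg fun j _ => by split_ifs <;> norm_num) (by positivity)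
  · simp only [μ]
    rw [div_le_one (by positivity)]
    calc _ ≤ ∑ _j ∈ Finset.range (k + 1), (1 : ℝ) :=
          Finset.sum_le_sum fun j _ => by split_ifs <;> norm_num
      _ = _ := by simp
  · refine tendsto_const_nhds.congr fun k => ?_
    simp only [μ, Set.mem_univ, if_true, Finset.sum_const, Finset.card_range, nsmul_eq_mul]
    push_cast
    field_simp
  · intro A B hAB
    refine tendsto_const_nhds.congr fun k => ?_
    simp only [μ]
    rw [← sub_div, ← sub_div, ← Finset.sum_sub_distrib, ← Finset.sum_sub_distrib,
      Finset.sum_eq_zero, zero_div]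
    intro j _
    by_cases h1 : a ^ j ∈ A
    · have h2 : a ^ j ∉ B := Set.disjoint_left.1 hAB h1
      simp [h1, h2]
    · by_cases h2 : a ^ j ∈ B <;> simp [h1, h2]
  · intro g
    have hg : g ∈ Subgroup.closure {a} := ha ▸ Subgroup.mem_top g
    induction hg using Subgroup.closure_induction with
    | mem x hx =>
      obtain rfl : x = a := hx
      intro A
      refine squeeze_zero_norm (a := fun k : ℕ => 1 / ((k : ℝ) + 1)) (fun k => ?_)
        tendsto_one_div_add_atTop_nhds_zero_nat
      simp only [μ]
      rw [← sub_div, Real.norm_eq_abs, abs_div, abs_of_pos (a := (k : ℝ) + 1) (by positivity)]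
      refine div_le_div_of_nonneg_right ?_ (by positivity)
      rw [← Finset.sum_sub_distrib]
      have := Finset.sum_range_sub (fun j => if x ^ j ∈ A then (1 : ℝ) else 0) (k + 1)
      simp only [Set.mem_preimage, ← pow_succ']
      rw [this]
      split_ifs <;> norm_num
    | one => intro A; simp
    | mul x y _ _ hx hy =>
      intro A
      have := (hy ((fun z => x * z) ⁻¹' A)).add (hx A)
      simp only [add_zero, sub_add_sub_cancel] at this
      refine this.congr fun k => ?_
      congr 2
      ext z
      simp [mul_assoc]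
    | inv x _ hx =>
      intro A
      have := (hx ((fun z => x⁻¹ * z) ⁻¹' A)).neg
      simp only [neg_zero, neg_sub] at this
      refine this.congr fun k => ?_
      congr 2
      ext z
      simp

theorem hasMean_comm (G : Type) [Group G] (hG : ∀ a b : G, a * b = b * a) : HasMean G := by
  classical
  refine cls_mean.loc fun s => ?_
  induction s using Finset.induction_on with
  | empty => exact ⟨⊥, by simp, cls_mean.bot⟩
  | insert a s _ ih =>
    obtain ⟨K, hs, hK⟩ := ih
    have hC : HasMean (Subgroup.closure {a}) := by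
      refine hasMean_cyc _ ⟨a, Subgroup.subset_closure rfl⟩ ?_
      have := Subgroup.closure_preimage_eq_top ({a} : Set G)
      rw [← this]
      congr 1
      ext x
      simp [Subtype.ext_iff]
    have hP : HasMean (K × Subgroup.closure {a}) := by
      refine cls_mean.ker (MonoidHom.fst _ _) hK ?_
      refine cls_mean.sub _ _ ((MonoidHom.snd _ _).comp (Subgroup.subtype _)) ?_ hC
      intro x y hxy
      have hx : x.1.1 = 1 := x.2
      have hy : y.1.1 = 1 := y.2
      exact Subtype.ext (Prod.ext (hx.trans hy.symm) hxy)
    let φ := MonoidHom.noncommCoprod K.subtype (Subgroup.closure {a}).subtype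
      fun x y => hG _ _
    refine ⟨φ.range, ?_, cls_mean.quot _ _ φ.rangeRestrict φ.rangeRestrict_surjective hP⟩
    intro x hx
    rw [Finset.coe_insert] at hx
    rcases hx with rfl | hx
    · exact ⟨(1, ⟨x, Subgroup.subset_closure rfl⟩), by simp [φ]⟩
    · exact ⟨(⟨x, hs hx⟩, 1), by simp [φ]⟩

theorem hasMean_ea {G : Type} [Group G] (h : Gen FinAb G) : HasMean G :=
  Gen.le cls_mean (fun G _ hG => hG.elim (hasMean_fin G) (hasMean_comm G)) h

theorem omits_ea {G : Type} [Group G] (h : Gen FinAb G) : Gen Omits G :=
  Gen.le (cls_gen omits_fin) (fun G _ hG => Gen.base G (omits_finAb G hG)) h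

end Pool.Agent.Lib.MP_1d2f05_al
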