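import Pool.Agent.Lib.MP_1d2f05_al.Ext

set_option autoImplicit false

namespace Pool.Agent.Lib.MP_1d2f05_al

open Function Equiv Set

variable {X : Type} {S : Set X → (X → X) → Prop} {E E' D O : Set X} {f g h : X → X}
  {A : (G : Type) → [Group G] → Prop}

theorem same_track (hS : Sys S) (hf : S E f) (hg : S E g) (hh : S E h) (hfg : Dj E f g)
    (hfh : Dj E f h) (hgh : Dj E g h) : M (Gam S) E f 0 g 0 h 0 := by
  intro π hπ
  obtain ⟨σ, hσ⟩ := (tr_tri (hS.inj hg) (hS.inj hg) (hS.inj hg) (i := (0 : T8)) (j := 1) (l := 3)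
    (by decide) (by decide) (by decide)).ex
  obtain ⟨τ, hτ⟩ := (tr_tri (hS.inj hh) (hS.inj hh) (hS.inj hh) (i := (0 : T8)) (j := 2) (l := 4)
    (by decide) (by decide) (by decide)).ex
  have hσG := m_gam hS hg hg hg (by decide) (by decide) (by decide) σ hσ
  have hτG := m_gam hS hh hh hh (by decide) (by decide) (by decide) τ hτ
  have h1 : Cyc (σ * π * σ⁻¹) E (tr f 0) (tr g 1) (tr h 0) := by
    refine (hπ.conj σ).congr (fun x hx => ?_) (fun x hx => hσ.ab x hx) fun x hx => ?_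
    · exact hσ.fix _ (fun y hy e => hfg x hx y hy (congrArg Prod.fst e).symm)
        (fun y _ e => absurd (congrArg Prod.snd e) (by simp))
        (fun y _ e => absurd (congrArg Prod.snd e) (by simp))
    · exact hσ.fix _ (fun y hy e => hgh y hy x hx (congrArg Prod.fst e))
        (fun y _ e => absurd (congrArg Prod.snd e) (by simp))
        (fun y _ e => absurd (congrArg Prod.snd e) (by simp))
  have h2 : Cyc (τ * (σ * π * σ⁻¹) * τ⁻¹) E (tr f 0) (tr g 1) (tr h 2) := by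
    refine (h1.conj τ).congr (fun x hx => ?_) (fun x _ => ?_) fun x hx => hτ.ab x hx
    · exact hτ.fix _ (fun y hy e => hfh x hx y hy (congrArg Prod.fst e).symm)
        (fun y _ e => absurd (congrArg Prod.snd e) (by simp))
        (fun y _ e => absurd (congrArg Prod.snd e) (by simp))
    · exact hτ.fix_tr _ (by simp) (by simp) (by simp)
  have h3 := m_gam hS hf hg hh (by decide) (by decide) (by decide) _ h2
  have h4 := self_conj _ _ (Subgroup.inv_mem _ hσG) _ (self_conj _ _ (Subgroup.inv_mem _ hτG) _ h3)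
  simpa [mul_assoc] using h4

theorem alt_section (hS : Sys S) {Λ : Type} [Group Λ] (hΛ : Sec Λ S) {m : ℕ}
    (f : Fin m → X → X) (hf : ∀ a, S E (f a)) (hd : ∀ a b, a ≠ b → Dj E (f a) (f b))
    (hne : E.Nonempty) :
    ∃ (K : Subgroup Λ) (φ : K →* alternatingGroup (Fin m)), Surjective φ := by
  obtain ⟨R, h1, _, h3⟩ := hΛ
  let Φ : E × Fin m ↪ X × T8 := ⟨fun p => (f p.2 p.1, 0), by
    rintro ⟨x, a⟩ ⟨y, b⟩ e
    have e1 : f a x = f b y := congrArg Prod.fst e
    have e2 : a = b := by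
      by_contra hab
      exact hd a b hab x x.2 y y.2 e1
    subst e2
    rw [Subtype.ext (hS.inj (hf a) x.2 y.2 e1)]⟩
  let ρ : Perm (Fin m) →* Perm (E × Fin m) :=
    { toFun := fun s => Equiv.prodCongr (Equiv.refl E) s
      map_one' := by ext p <;> simp
      map_mul' := fun s t => by ext p <;> simp }
  let ms : Perm (Fin m) →* Perm (X × T8) := (Perm.viaEmbeddingHom Φ).comp ρ
  have hms : ∀ s a, ∀ x ∈ E, ms s (f a x, 0) = (f (s a) x, 0) := fun s a x hx =>
    Perm.viaEmbedding_apply (ρ s) Φ (⟨x, hx⟩, a)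
  have hmem : ∀ s ∈ alternatingGroup (Fin m), ms s ∈ Gam S := by
    intro s hs
    rw [← Perm.closure_three_cycles_eq_alternating] at hs
    refine (Subgroup.closure_le ((Gam S).comap ms)).2 (fun s hs => ?_) hs
    have hs3 : s.IsThreeCycle := hs
    obtain ⟨a, ha⟩ : s.support.Nonempty := by
      rw [← Finset.card_pos, hs3.card_support]; norm_num
    have hn := hs3.nodup_iff_mem_support.2 ha
    have hsup := hs3.support_eq_iff_mem_support.2 ha
    simp only [List.nodup_cons, List.mem_cons, List.not_mem_nil, or_false, not_or] at hn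
    have h3 : s (s (s a)) = a := by
      have : (s ^ 3) a = a := by rw [← hs3.orderOf, pow_orderOf_eq_one]; rfl
      simpa [pow_succ] using this
    refine same_track hS (hf a) (hf (s a)) (hf (s (s a))) (hd _ _ hn.1.1) (hd _ _ hn.1.2)
      (hd _ _ hn.2.1) _ ⟨hms s a, hms s _, fun x hx => by rw [tr_apply, hms s _ x hx, h3]; rfl,
        fun p a1 a2 a3 => ?_⟩
    by_cases hp : p ∈ Set.range Φ
    · obtain ⟨⟨x, b⟩, rfl⟩ := hp
      have hb : b ∉ s.support := by
        rw [hsup]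
        simp only [Finset.mem_insert, Finset.mem_singleton, not_or]
        exact ⟨fun e => a1 x x.2 (e ▸ rfl), fun e => a2 x x.2 (e ▸ rfl), fun e => a3 x x.2 (e ▸ rfl)⟩
      have := hms s b x x.2
      rw [Perm.notMem_support.1 hb] at this
      exact this
    · exact Perm.viaEmbedding_apply_of_notMem (ρ s) Φ p hp
  let R' : Subgroup (Λ × alternatingGroup (Fin m)) :=
    R.comap (MonoidHom.prodMap (MonoidHom.id Λ) (ms.comp (Subgroup.subtype _)))
  let p1 : R' →* Λ := (MonoidHom.fst _ _).comp R'.subtype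
  have hp1 : Injective p1 := by
    rw [injective_iff_map_eq_one]
    rintro ⟨⟨a, s⟩, hq⟩ e
    obtain rfl : a = 1 := e
    have hz := h3 _ hq
    obtain ⟨x, hx⟩ := hne
    refine Subtype.ext (Prod.ext rfl (Subtype.ext (Equiv.ext fun b => ?_)))
    by_contra hb
    have h4 := (hz _ 0 (f b x) (hS.ran (hf b)) ⟨x, hx, rfl⟩).1
    have h5 : ms s.1 (f b x, 0) = (f (s.1 b) x, 0) := hms _ b x hx
    obtain ⟨y, hy, e⟩ := h4
    exact hd _ _ hb x hx y hy ((congrArg Prod.fst h5).symm.trans e.symm)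
  refine ⟨p1.range, ((MonoidHom.snd _ _).comp R'.subtype).comp
    (MonoidHom.ofInjective hp1).symm.toMonoidHom, fun s => ?_⟩
  obtain ⟨a, ha⟩ := h1 _ (hmem s.1 s.2)
  exact ⟨MonoidHom.ofInjective hp1 ⟨(a, s), ha⟩, by simp⟩

def rel (S : Set X → (X → X) → Prop) : Setoid X where
  r x y := ∀ D, S D id → (x ∈ D ↔ y ∈ D)
  iseqv := ⟨fun _ _ _ => Iff.rfl, fun h D hD => (h D hD).symm,
    fun h h' D hD => (h D hD).trans (h' D hD)⟩

theorem orbit_bound (hS : Sys S) {Λ : Type} [Group Λ] (hΛ : Sec Λ S) {m : ℕ}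
    (hm : ∀ (K : Subgroup Λ) (φ : K →* alternatingGroup (Fin m)), ¬ Surjective φ) (x : X)
    (hx : sp S x) :
    Nonempty ({c : Quotient (rel S) // ∃ D f, S D f ∧ x ∈ D ∧ c = Quotient.mk _ (f x)} ↪ Fin m) := by
  refine (Function.Embedding.total _ _).resolve_right fun ⟨e⟩ => ?_
  have := fun a => (e a).2
  choose D f h1 h2 h3 using this
  have sep : ∀ p : Fin m × Fin m, ∃ W, S W id ∧ x ∈ W ∧
      (p.1 ≠ p.2 → ∀ y ∈ W, ∀ z ∈ W, f p.1 y ≠ f p.2 z) := by
    rintro ⟨a, b⟩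
    by_cases hab : a = b
    · exact ⟨D a, hS.dom (h1 a), h2 a, fun h => absurd hab h⟩
    have hne : ¬ rel S (f a x) (f b x) := fun h =>
      hab (e.injective (Subtype.ext ((h3 a).trans ((Quotient.sound h).trans (h3 b).symm))))
    have key : ∀ a b C, S C id → f a x ∈ C → f b x ∉ C → ∃ W, S W id ∧ x ∈ W ∧
        ∀ y ∈ W, ∀ z ∈ W, f a y ≠ f b z := by
      intro a b C hC c1 c2
      refine ⟨(D a ∩ f a ⁻¹' C) ∩ (D b \ (D b ∩ f b ⁻¹' C)), hS.restr (hS.dom (hS.pre (h1 a) hC))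
        (hS.diff (hS.dom (h1 b)) (hS.dom (hS.pre (h1 b) hC))),
        ⟨⟨h2 a, c1⟩, h2 b, fun h => c2 h.2⟩, fun y hy z hz e => hz.2.2 ⟨hz.2.1, ?_⟩⟩
      show f b z ∈ C
      rw [← e]
      exact hy.1.2
    have : ∃ C, S C id ∧ ¬ (f a x ∈ C ↔ f b x ∈ C) := by
      by_contra hc
      push Not at hc
      exact hne hc
    obtain ⟨C, hC, hn⟩ := this
    by_cases c1 : f a x ∈ C
    · obtain ⟨W, w1, w2, w3⟩ := key a b C hC c1 fun c2 => hn ⟨fun _ => c2, fun _ => c1⟩
      exact ⟨W, w1, w2, fun _ => w3⟩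
    · have c2 : f b x ∈ C := by
        by_contra c2
        exact hn ⟨fun h => absurd h c1, fun h => absurd h c2⟩
      obtain ⟨W, w1, w2, w3⟩ := key b a C hC c2 c1
      exact ⟨W, w1, w2, fun _ y hy z hz e => w3 z hz y hy e.symm⟩
  choose W w1 w2 w3 using sep
  obtain ⟨D0, d1, d2⟩ := hx
  have hE := hS.iInter W w1 (hS.iInter D (fun a => hS.dom (h1 a)) d1)
  obtain ⟨K, φ, hφ⟩ := alt_section hS hΛ f
    (fun a => hS.sub (h1 a) hE fun y hy => mem_iInter.1 hy.1.2 a)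
    (fun a b hab y hy z hz => w3 (a, b) hab y (mem_iInter.1 hy.2 _) z (mem_iInter.1 hz.2 _))
    ⟨x, ⟨d2, mem_iInter.2 h2⟩, mem_iInter.2 w2⟩
  exact hm K φ hφ

theorem fin_hom {G H : Type} [Group G] [Group H] [Finite H] (s : Set G) (hs : s.Finite)
    (hc : Subgroup.closure s = ⊤) : Finite (G →* H) := by
  have := hs.to_subtype
  refine Finite.of_injective (fun φ : G →* H => fun x : s => φ x) fun φ ψ e => ?_
  exact MonoidHom.eq_of_eqOn_dense hc fun x hx => congrFun e ⟨x, hx⟩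

theorem full_rel (hS : Sys S) {ι : Type} {π : Perm (X × ι)} (hπ : π ∈ Full hS ι) {x y : X} (i : ι)
    (hr : rel S x y) : rel S (π (x, i)).1 (π (y, i)).1 ∧ (π (x, i)).2 = (π (y, i)).2 := by
  obtain ⟨E, h1, h2, h3⟩ := hπ
  by_cases hx : x ∈ E
  · obtain ⟨D, f, j, a1, a2, a3⟩ := h3 (x, i) ⟨E, h1, hx⟩
    have a4 : y ∈ D := (hr D (hS.dom a2)).1 a1
    rw [show π (x, i) = (f x, j) from a3 x a1, show π (y, i) = (f y, j) from a3 y a4]
    refine ⟨fun C hC => ?_, rfl⟩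
    have := hr _ (hS.dom (hS.pre a2 hC))
    exact ⟨fun h => (this.1 ⟨a1, h⟩).2, fun h => (this.2 ⟨a4, h⟩).2⟩
  · rw [h2 (x, i) hx, h2 (y, i) fun h => hx ((hr E h1).2 h)]
    exact ⟨hr, rfl⟩

theorem inv_empty : Inv S ∅ := fun _ _ _ _ _ => Iff.rfl

theorem full_base (hA : Cls A) (hS : Sys S) {Λ : Type} [Group Λ] (hΛ : Sec Λ S) (hm : Omits Λ)
    (n : ℕ) (hG : A (Gam S)) : A (Full hS (Fin n)) := by
  classical
  obtain ⟨m, hm⟩ := hm
  refine hA.loc' _ fun s hs => ⟨Subgroup.closure s, Subgroup.subset_closure, ?_⟩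
  let J := Subgroup.closure (s : Set (Perm (X × Fin n)))
  have hJ : J ≤ Full hS (Fin n) := (Subgroup.closure_le _).2 hs
  let r : Setoid (X × Fin n) :=
    { r := fun p q => rel S p.1 q.1 ∧ p.2 = q.2
      iseqv := ⟨fun _ => ⟨(rel S).refl _, rfl⟩, fun h => ⟨(rel S).symm h.1, h.2.symm⟩,
        fun h h' => ⟨(rel S).trans h.1 h'.1, h.2.trans h'.2⟩⟩ }
  have hr : ∀ π : J, ∀ p q, r p q → r (π.1 p) (π.1 q) := by
    rintro π ⟨x, i⟩ ⟨y, j⟩ ⟨h1, h2⟩
    obtain rfl : i = j := h2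
    exact full_rel hS (hJ π.2) i h1
  letI : MulAction J (Quotient r) :=
    { smul := fun π => Quotient.map π.1 (hr π)
      one_smul := fun c => by
        obtain ⟨p, rfl⟩ := c.exists_rep
        rfl
      mul_smul := fun π π' c => by
        obtain ⟨p, rfl⟩ := c.exists_rep
        rfl }
  have hsm : ∀ (π : J) p, π • Quotient.mk r p = Quotient.mk r (π.1 p) := fun _ _ => rfl
  have hemb : ∀ p : X × Fin n, sp S p.1 →
      Nonempty (MulAction.orbit J (Quotient.mk r p) ↪ Fin m × Fin n) := by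
    intro p hp
    obtain ⟨e⟩ := orbit_bound hS hΛ hm p.1 hp
    have : ∀ c : MulAction.orbit J (Quotient.mk r p), ∃ D f, S D f ∧ p.1 ∈ D ∧
        Quotient.mk (rel S) c.1.out.1 = Quotient.mk _ (f p.1) := by
      rintro ⟨c, π, rfl⟩
      obtain ⟨_, _, _, h3⟩ := hJ π.2
      obtain ⟨D, f, j, a1, a2, a3⟩ := h3 p hp
      refine ⟨D, f, a2, a1, Quotient.sound ?_⟩
      have h4 : r (Quotient.mk r (π.1 p)).out (π.1 p) := Quotient.mk_out (s := r) _
      have h5 := h4.1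
      rw [show (π.1 p).1 = f p.1 from congrArg Prod.fst (a3 _ a1)] at h5
      exact h5
    refine ⟨⟨fun c => (e ⟨_, this c⟩, c.1.out.2), fun c c' h => ?_⟩⟩
    have h1 := congrArg Subtype.val (e.injective (congrArg Prod.fst h))
    have h2 : c.1.out.2 = c'.1.out.2 := (Prod.ext_iff.1 h).2
    refine Subtype.ext ?_
    rw [← c.1.out_eq, ← c'.1.out_eq]
    exact Quotient.sound ⟨Quotient.exact h1, h2⟩
  have : Finite (J →* Perm (Fin m × Fin n)) :=
    fin_hom (Subtype.val ⁻¹' (s : Set (Perm (X × Fin n))))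
      (s.finite_toSet.preimage Subtype.val_injective.injOn) (Subgroup.closure_preimage_eq_top _)
  let Φ : J →* ((J →* Perm (Fin m × Fin n)) → Perm (Fin m × Fin n)) :=
    { toFun := fun π φ => φ π
      map_one' := by ext1 φ; simp
      map_mul' := fun a b => by ext1 φ; simp }
  refine hA.ker Φ (hA.fin _ inferInstance) ?_
  have hL : A (Φ.ker.map J.subtype) := by
    refine tr_lemma hA hS inv_empty n hG ?_ _ ?_
    · refine hA.le (L := ⊥) ?_ hA.bot
      rintro π ⟨E, h1, h2, _⟩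
      rw [Subgroup.mem_bot]
      ext1 p
      exact h2 p fun h => h1.2 h
    · rintro _ ⟨π, hπ, rfl⟩
      refine ⟨hJ π.2, ∅, hS.empty, empty_subset _, fun p _ => ?_⟩
      by_cases hp : sp S p.1
      · obtain ⟨e⟩ := hemb p hp
        have h1 := congrFun (show Φ π = 1 from hπ)
          ((Perm.viaEmbeddingHom e).comp (MulAction.toPermHom J _))
        have h2 : MulAction.toPermHom J (MulAction.orbit J (Quotient.mk r p)) π = 1 :=
          Perm.viaEmbeddingHom_injective e (by rw [map_one]; exact h1)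
        have h3 := congrArg Subtype.val (congrArg (fun σ : Perm _ => σ
          (⟨Quotient.mk r p, MulAction.mem_orbit_self _⟩ : MulAction.orbit J (Quotient.mk r p))) h2)
        have h4 : Quotient.mk r (π.1 p) = Quotient.mk r p := h3
        exact (Quotient.exact h4).2
      · obtain ⟨E, h1, h2, _⟩ := hJ π.2
        exact congrArg Prod.snd (h2 p fun h => hp ⟨E, h1, h⟩)
  exact hA.sub _ _ (Φ.ker.equivMapOfInjective J.subtype J.subtype_injective).toMonoidHom
    (MulEquiv.injective _) hL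

theorem main_ind (hA : Cls A) {Λ : Type} [Group Λ] (hΛ : Gen Omits Λ) :
    ∀ (S : Set X → (X → X) → Prop) (hS : Sys S), Sec Λ S → A (Gam S) → ∀ n,
      A (Full hS (Fin n)) := by
  induction hΛ with
  | base Λ hm => exact fun S hS h hG n => full_base hA hS h hm n hG
  | sub Λ Λ' φ hφ _ ih =>
    rintro S hS ⟨R, h1, h2, h3⟩
    refine ih S hS ⟨R.map (φ.prodMap (MonoidHom.id _)), fun γ hγ => ?_, ?_, ?_⟩
    · obtain ⟨a, ha⟩ := h1 γ hγ
      exact ⟨φ a, (a, γ), ha, rfl⟩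
    · rintro _ ⟨q, hq, rfl⟩
      exact h2 q hq
    · rintro γ ⟨⟨a, γ'⟩, hq, e⟩
      obtain rfl : γ' = γ := congrArg Prod.snd e
      obtain rfl : a = 1 := hφ ((congrArg Prod.fst e).trans φ.map_one.symm)
      exact h3 _ hq
  | quot Λ Λ' φ hφ _ ih =>
    rintro S hS ⟨R, h1, h2, h3⟩
    refine ih S hS ⟨R.comap (φ.prodMap (MonoidHom.id _)), fun γ hγ => ?_, fun q hq => h2 _ hq,
      fun γ hγ => h3 γ ?_⟩
    · obtain ⟨a, ha⟩ := h1 γ hγ
      obtain ⟨b, rfl⟩ := hφ a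
      exact ⟨b, ha⟩
    · simpa using hγ
  | ext Λ K _ _ ih1 ih2 =>
    intro S hS h hG n
    obtain ⟨O, hO, hP, a1, a2⟩ := sec_ext hS K h
    exact full_ext hA hS hO hP n hG
      (ih1 _ (sys_SO hS hO) a1 (hA.le (gam_mono fun _ _ h => h.1) hG) n)
      (ih2 _ (sys_SY hS hO hP) a2 (a_gam_SY hA hS hO hP hG) n)
  | union Λ T hd hc _ ih =>
    rintro S hS ⟨R, h1, h2, h3⟩ hG n
    refine hA.loc' _ fun s hs => ?_
    have := fun π : s => full_fg hS (hs π.2)
    choose B b1 b2 b3 using this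
    have hB : ∀ b ∈ ⋃ π, B π, S b.1 b.2 := fun b hb => by
      obtain ⟨π, hπ⟩ := mem_iUnion.1 hb
      exact b2 π b hπ
    refine ⟨Full (sys_gen hS hB) (Fin n), fun π hπ => b3 ⟨π, hπ⟩ _ hB (subset_iUnion B ⟨π, hπ⟩), ?_⟩
    have hle : Gam (GenS (⋃ π, B π)) ≤ Gam S := gam_mono fun _ _ h => h.le hS hB
    obtain ⟨U, u1, u2⟩ := gam_fg hS hB (finite_iUnion b1)
    have hK : ∃ K ∈ T, ∀ γ ∈ U, ∃ a ∈ K, (a, γ) ∈ R := by
      have hU : U ⊆ Gam S := fun γ hγ => hle (u2 ▸ Subgroup.subset_closure hγ)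
      clear u2
      induction U, u1 using Set.Finite.induction_on with
      | empty =>
        obtain ⟨K, hK, _⟩ := hc 1
        exact ⟨K, hK, by simp⟩
      | @insert γ U _ _ ihU =>
        obtain ⟨K, k1, k2⟩ := ihU fun x hx => hU (mem_insert_of_mem _ hx)
        obtain ⟨a, ha⟩ := h1 γ (hU (mem_insert _ _))
        obtain ⟨K', k3, k4⟩ := hc a
        obtain ⟨L, l1, l2, l3⟩ := hd K k1 K' k3
        refine ⟨L, l1, ?_⟩
        rintro γ' (rfl | hγ')
        · exact ⟨a, l3 k4, ha⟩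
        · obtain ⟨b, c1, c2⟩ := k2 γ' hγ'
          exact ⟨b, l2 c1, c2⟩
    obtain ⟨K, k1, k2⟩ := hK
    refine ih K k1 _ (sys_gen hS hB) ⟨
      { carrier := {q | (q.1.1, q.2) ∈ R ∧ q.2 ∈ Gam (GenS (⋃ π, B π))}
        one_mem' := ⟨R.one_mem, Subgroup.one_mem _⟩
        mul_mem' := fun a b => ⟨R.mul_mem a.1 b.1, Subgroup.mul_mem _ a.2 b.2⟩
        inv_mem' := fun a => ⟨R.inv_mem a.1, Subgroup.inv_mem _ a.2⟩ },
      fun γ hγ => ?_, fun q hq => hq.2,
      fun γ hγ D i x hD hx => h3 γ hγ.1 D i x (hD.le hS hB) hx⟩ (hA.le hle hG) n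
    have : ∃ a ∈ K, (a, γ) ∈ R := by
      rw [u2] at hγ
      induction hγ using Subgroup.closure_induction with
      | mem γ hγ => exact k2 γ hγ
      | one => exact ⟨1, K.one_mem, R.one_mem⟩
      | mul _ _ _ _ i1 i2 =>
        obtain ⟨a, a1, a2⟩ := i1
        obtain ⟨b, b1, b2⟩ := i2
        exact ⟨a * b, K.mul_mem a1 b1, R.mul_mem a2 b2⟩
      | inv _ _ i1 =>
        obtain ⟨a, a1, a2⟩ := i1
        exact ⟨a⁻¹, K.inv_mem a1, R.inv_mem a2⟩
    obtain ⟨a, a1, a2⟩ := this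
    exact ⟨⟨a, a1⟩, a2, hγ⟩

end Pool.Agent.Lib.MP_1d2f05_al
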