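import Pool.Agent.Lib.MP_1d2f05_al.Defs

set_option autoImplicit false

namespace Pool.Agent.Lib.MP_1d2f05_al

open Function

structure Cls (A : (G : Type) → [Group G] → Prop) : Prop where
  fin : ∀ (G : Type) [Group G], Finite G → A G
  sub : ∀ (G H : Type) [Group G] [Group H] (f : G →* H), Injective f → A H → A G
  quot : ∀ (G H : Type) [Group G] [Group H] (f : G →* H), Surjective f → A G → A H
  ext : ∀ (G : Type) [Group G] (N : Subgroup G) [N.Normal], A N → A (G ⧸ N) → A G
  union : ∀ (G : Type) [Group G] (S : Set (Subgroup G)),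
      DirectedOn (· ≤ ·) S → (∀ g : G, ∃ K ∈ S, g ∈ K) → (∀ K ∈ S, A K) → A G

variable {A : (G : Type) → [Group G] → Prop}

theorem Cls.ker (h : Cls A) {G H : Type} [Group G] [Group H] (f : G →* H) (hH : A H)
    (hK : A f.ker) : A G :=
  h.ext G f.ker hK (h.sub _ _ (QuotientGroup.kerLift f) (QuotientGroup.kerLift_injective f) hH)

theorem Cls.le (h : Cls A) {G : Type} [Group G] {K L : Subgroup G} (hle : K ≤ L) (hL : A L) :
    A K :=
  h.sub _ _ (Subgroup.inclusion hle) (Subgroup.inclusion_injective hle) hL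

theorem Cls.loc (h : Cls A) {G : Type} [Group G]
    (hl : ∀ s : Finset G, ∃ K : Subgroup G, (s : Set G) ⊆ K ∧ A K) : A G := by
  classical
  refine h.union G (Set.range fun s : Finset G => Subgroup.closure (s : Set G)) ?_ ?_ ?_
  · rintro _ ⟨s, rfl⟩ _ ⟨t, rfl⟩
    refine ⟨_, ⟨s ∪ t, rfl⟩, Subgroup.closure_mono ?_, Subgroup.closure_mono ?_⟩ <;> simp
  · intro g
    exact ⟨_, ⟨{g}, rfl⟩, Subgroup.subset_closure (by simp)⟩
  · rintro _ ⟨s, rfl⟩
    obtain ⟨K, hs, hK⟩ := hl s
    exact h.le ((Subgroup.closure_le K).2 hs) hK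

/-- local version for a subgroup of an ambient group -/
theorem Cls.loc' (h : Cls A) {G : Type} [Group G] (L : Subgroup G)
    (hl : ∀ s : Finset G, (s : Set G) ⊆ L → ∃ K : Subgroup G, (s : Set G) ⊆ K ∧ A K) : A L := by
  classical
  refine h.loc fun s => ?_
  obtain ⟨K, hs, hK⟩ := hl (s.image Subtype.val) (by
    intro x hx
    simp only [Finset.coe_image, Set.mem_image] at hx
    obtain ⟨y, _, rfl⟩ := hx
    exact y.2)
  refine ⟨K.subgroupOf L, fun x hx => ?_, ?_⟩
  · exact hs (by simp only [Finset.coe_image, Set.mem_image]; exact ⟨x, hx, rfl⟩)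
  · refine h.sub _ _ ((L.subtype.comp (K.subgroupOf L).subtype).codRestrict K fun x => x.2) ?_ hK
    intro x y hxy
    have := congrArg Subtype.val hxy
    exact Subtype.ext (Subtype.ext this)

/-- correspondences -/
theorem Cls.corr (h : Cls A) {B G : Type} [Group B] [Group G] (L K : Subgroup G)
    (R : Subgroup (B × G)) (hB : A B) (hK : A K) (h1 : ∀ g ∈ L, ∃ b, (b, g) ∈ R)
    (h2 : ∀ g, (1, g) ∈ R → g ∈ K) : A L := by
  have hR : A R := by
    refine h.ker ((MonoidHom.fst B G).comp R.subtype) hB ?_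
    refine h.sub _ _ (((MonoidHom.snd B G).comp (R.subtype.comp (Subgroup.subtype _))).codRestrict
      K fun x => ?_) ?_ hK
    · have hx : x.1.1.1 = 1 := x.2
      refine h2 _ ?_
      have := x.1.2
      rw [← hx]
      exact this
    · intro x y hxy
      have h3 : x.1.1.2 = y.1.1.2 := congrArg Subtype.val hxy
      have hx : x.1.1.1 = 1 := x.2
      have hy : y.1.1.1 = 1 := y.2
      exact Subtype.ext (Subtype.ext (Prod.ext (hx.trans hy.symm) h3))
  have hI : A (R.map (MonoidHom.snd B G)) :=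
    h.quot _ _ ((MonoidHom.snd B G).subgroupMap R) (MonoidHom.subgroupMap_surjective _ _) hR
  refine h.le (fun g hg => ?_) hI
  obtain ⟨b, hb⟩ := h1 g hg
  exact ⟨(b, g), hb, rfl⟩

theorem Cls.pi (h : Cls A) {B : Type} [Group B] (hB : A B) (n : ℕ) : A (Fin n → B) := by
  induction n with
  | zero => exact h.fin _ inferInstance
  | succ n ih =>
    refine h.ker (Pi.evalMonoidHom (fun _ : Fin (n + 1) => B) 0) hB ?_
    let φ : (Fin (n + 1) → B) →* (Fin n → B) :=
      { toFun := fun f i => f i.succ, map_one' := rfl, map_mul' := fun _ _ => rfl }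
    refine h.sub _ _ (φ.comp (Subgroup.subtype _)) ?_ ih
    intro x y hxy
    have hx : x.1 0 = 1 := x.2
    have hy : y.1 0 = 1 := y.2
    refine Subtype.ext (funext fun i => ?_)
    refine Fin.cases (hx.trans hy.symm) (fun j => ?_) i
    exact congrFun hxy j

theorem Cls.bot (h : Cls A) {G : Type} [Group G] : A (⊥ : Subgroup G) :=
  h.fin _ inferInstance

theorem cls_gen {P : (G : Type) → [Group G] → Prop}
    (hP : ∀ (G : Type) [Group G], Finite G → P G) : Cls (Gen P) where
  fin G _ hG := Gen.base G (hP G hG)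
  sub G H _ _ f hf hH := Gen.sub G H f hf hH
  quot G H _ _ f hf hG := Gen.quot G H f hf hG
  ext G _ N _ h1 h2 := Gen.ext G N h1 h2
  union G _ S h1 h2 h3 := Gen.union G S h1 h2 h3

theorem Gen.le {P : (G : Type) → [Group G] → Prop} (h : Cls A)
    (hP : ∀ (G : Type) [Group G], P G → A G) {G : Type} [Group G] (hG : Gen P G) : A G := by
  induction hG with
  | base G hG => exact hP G hG
  | sub G H f hf _ ih => exact h.sub G H f hf ih
  | quot G H f hf _ ih => exact h.quot G H f hf ih
  | ext G N _ _ ih1 ih2 => exact h.ext G N ih1 ih2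
  | union G S h1 h2 _ ih => exact h.union G S h1 h2 ih

theorem omits_fin (G : Type) [Group G] (hG : Finite G) : Omits G := by
  refine ⟨Nat.card G + 3, fun K f hf => ?_⟩
  have h1 := Nat.card_le_card_of_surjective f hf
  have h2 : Nat.card K ≤ Nat.card G := Nat.card_le_card_of_injective _ K.subtype_injective
  have h3 : 2 * Nat.card (alternatingGroup (Fin (Nat.card G + 3))) = (Nat.card G + 3).factorial := by
    have := two_mul_nat_card_alternatingGroup (α := Fin (Nat.card G + 3))
    rw [this, Nat.card_perm]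
    simp
  have h4 : (Nat.card G + 3) * (Nat.card G + 2) ≤ (Nat.card G + 3).factorial := by
    rw [Nat.factorial_succ]
    exact Nat.mul_le_mul_left _ (Nat.self_le_factorial _)
  nlinarith

theorem omits_finAb (G : Type) [Group G] (hG : FinAb G) : Omits G := by
  rcases hG with hG | hG
  · exact omits_fin G hG
  · refine ⟨5, fun K f hf => ?_⟩
    let a : alternatingGroup (Fin 5) := ⟨c[0, 1, 2], Equiv.Perm.mem_alternatingGroup.2 (by decide)⟩
    let b : alternatingGroup (Fin 5) := ⟨c[0, 3, 4], Equiv.Perm.mem_alternatingGroup.2 (by decide)⟩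
    obtain ⟨x, hx⟩ := hf a
    obtain ⟨y, hy⟩ := hf b
    have : x * y = y * x := Subtype.ext (hG _ _)
    have h2 : a * b = b * a := by rw [← hx, ← hy, ← map_mul, this, map_mul]
    have h3 := congrArg Subtype.val h2
    revert h3
    decide

end Pool.Agent.Lib.MP_1d2f05_al
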