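import Mathlib

set_option autoImplicit false

namespace Pool.Agent.Lib.MP_1d2f05_al

open Function Equiv Set

structure Cyc {X Ω : Type} (π : Perm Ω) (E : Set X) (a b c : X → Ω) : Prop where
  ab : ∀ x ∈ E, π (a x) = b x
  bc : ∀ x ∈ E, π (b x) = c x
  ca : ∀ x ∈ E, π (c x) = a x
  fix : ∀ p, (∀ x ∈ E, a x ≠ p) → (∀ x ∈ E, b x ≠ p) → (∀ x ∈ E, c x ≠ p) → π p = p

variable {X Ω : Type} {π π' : Perm Ω} {E E' : Set X} {a b c e : X → Ω}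

theorem cyc_cases (E : Set X) (a b c : X → Ω) (p : Ω) :
    (∃ x ∈ E, a x = p) ∨ (∃ x ∈ E, b x = p) ∨ (∃ x ∈ E, c x = p) ∨
      ((∀ x ∈ E, a x ≠ p) ∧ (∀ x ∈ E, b x ≠ p) ∧ ∀ x ∈ E, c x ≠ p) := by
  by_cases h1 : ∃ x ∈ E, a x = p
  · exact Or.inl h1
  by_cases h2 : ∃ x ∈ E, b x = p
  · exact Or.inr (Or.inl h2)
  by_cases h3 : ∃ x ∈ E, c x = p
  · exact Or.inr (Or.inr (Or.inl h3))
  push Not at h1 h2 h3
  exact Or.inr (Or.inr (Or.inr ⟨h1, h2, h3⟩))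

theorem Cyc.uniq (h : Cyc π E a b c) (h' : Cyc π' E a b c) : π = π' := by
  ext p
  rcases cyc_cases E a b c p with ⟨x, hx, rfl⟩ | ⟨x, hx, rfl⟩ | ⟨x, hx, rfl⟩ | ⟨h1, h2, h3⟩
  · rw [h.ab x hx, h'.ab x hx]
  · rw [h.bc x hx, h'.bc x hx]
  · rw [h.ca x hx, h'.ca x hx]
  · rw [h.fix p h1 h2 h3, h'.fix p h1 h2 h3]

theorem Cyc.rot (h : Cyc π E a b c) : Cyc π E b c a :=
  ⟨h.bc, h.ca, h.ab, fun p h1 h2 h3 => h.fix p h3 h1 h2⟩

theorem Cyc.inv (h : Cyc π E a b c) : Cyc π⁻¹ E a c b :=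
  ⟨fun x hx => by rw [← h.ca x hx]; simp, fun x hx => by rw [← h.bc x hx]; simp,
    fun x hx => by rw [← h.ab x hx]; simp,
    fun p h1 h2 h3 => by rw [Perm.inv_eq_iff_eq, h.fix p h1 h3 h2]⟩

theorem Cyc.congr {a' b' c' : X → Ω} (h : Cyc π E a b c) (ha : EqOn a a' E) (hb : EqOn b b' E)
    (hc : EqOn c c' E) : Cyc π E a' b' c' :=
  ⟨fun x hx => by rw [← ha hx, ← hb hx, h.ab x hx], fun x hx => by rw [← hb hx, ← hc hx, h.bc x hx],
    fun x hx => by rw [← hc hx, ← ha hx, h.ca x hx],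
    fun p h1 h2 h3 => h.fix p (fun x hx => ha hx ▸ h1 x hx) (fun x hx => hb hx ▸ h2 x hx)
      (fun x hx => hc hx ▸ h3 x hx)⟩

theorem Cyc.conj (h : Cyc π E a b c) (σ : Perm Ω) :
    Cyc (σ * π * σ⁻¹) E (σ ∘ a) (σ ∘ b) (σ ∘ c) := by
  refine ⟨fun x hx => by simp [h.ab x hx], fun x hx => by simp [h.bc x hx],
    fun x hx => by simp [h.ca x hx], fun p h1 h2 h3 => ?_⟩
  have : π (σ⁻¹ p) = σ⁻¹ p := by
    refine h.fix _ (fun x hx e => h1 x hx ?_) (fun x hx e => h2 x hx ?_) (fun x hx e => h3 x hx ?_)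
    all_goals simp [e]
  simp only [Perm.coe_mul, comp_apply, this]
  simp

theorem cyc_image {Y : Type} (f : Y → X) (D : Set Y) :
    Cyc π (f '' D) a b c ↔ Cyc π D (a ∘ f) (b ∘ f) (c ∘ f) := by
  constructor
  · intro h
    refine ⟨fun x hx => h.ab _ ⟨x, hx, rfl⟩, fun x hx => h.bc _ ⟨x, hx, rfl⟩,
      fun x hx => h.ca _ ⟨x, hx, rfl⟩, fun p h1 h2 h3 => h.fix p ?_ ?_ ?_⟩
    · rintro _ ⟨x, hx, rfl⟩; exact h1 x hx
    · rintro _ ⟨x, hx, rfl⟩; exact h2 x hx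
    · rintro _ ⟨x, hx, rfl⟩; exact h3 x hx
  · intro h
    refine ⟨?_, ?_, ?_, fun p h1 h2 h3 => h.fix p (fun x hx => h1 _ ⟨x, hx, rfl⟩)
      (fun x hx => h2 _ ⟨x, hx, rfl⟩) (fun x hx => h3 _ ⟨x, hx, rfl⟩)⟩
    · rintro _ ⟨x, hx, rfl⟩; exact h.ab x hx
    · rintro _ ⟨x, hx, rfl⟩; exact h.bc x hx
    · rintro _ ⟨x, hx, rfl⟩; exact h.ca x hx

theorem cyc_empty : Cyc (1 : Perm Ω) (∅ : Set X) a b c :=
  ⟨by simp, by simp, by simp, fun _ _ _ _ => rfl⟩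

/-- images are disjoint -/
def Dj (E : Set X) (a b : X → Ω) : Prop := ∀ x ∈ E, ∀ y ∈ E, a x ≠ b y

theorem Dj.symm (h : Dj E a b) : Dj E b a := fun x hx y hy e => h y hy x hx e.symm

theorem Dj.mono (h : Dj E a b) (hE : E' ⊆ E) : Dj E' a b :=
  fun x hx y hy => h x (hE hx) y (hE hy)

open Classical in
noncomputable def cf (E : Set X) (a b c : X → Ω) (p : Ω) : Ω :=
  if h : ∃ x ∈ E, a x = p then b h.choose
  else if h : ∃ x ∈ E, b x = p then c h.choose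
  else if h : ∃ x ∈ E, c x = p then a h.choose else p

theorem cf_spec (ia : InjOn a E) (ib : InjOn b E) (ic : InjOn c E) (hab : Dj E a b)
    (hac : Dj E a c) (hbc : Dj E b c) :
    (∀ x ∈ E, cf E a b c (a x) = b x) ∧ (∀ x ∈ E, cf E a b c (b x) = c x) ∧
      (∀ x ∈ E, cf E a b c (c x) = a x) ∧
      ∀ p, (∀ x ∈ E, a x ≠ p) → (∀ x ∈ E, b x ≠ p) → (∀ x ∈ E, c x ≠ p) → cf E a b c p = p := by
  refine ⟨fun x hx => ?_, fun x hx => ?_, fun x hx => ?_, fun p h1 h2 h3 => ?_⟩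
  · have h : ∃ y ∈ E, a y = a x := ⟨x, hx, rfl⟩
    rw [cf, dif_pos h, ia h.choose_spec.1 hx h.choose_spec.2]
  · have h : ∃ y ∈ E, b y = b x := ⟨x, hx, rfl⟩
    rw [cf, dif_neg (fun ⟨y, hy, e⟩ => hab y hy x hx e), dif_pos h,
      ib h.choose_spec.1 hx h.choose_spec.2]
  · have h : ∃ y ∈ E, c y = c x := ⟨x, hx, rfl⟩
    rw [cf, dif_neg (fun ⟨y, hy, e⟩ => hac y hy x hx e),
      dif_neg (fun ⟨y, hy, e⟩ => hbc y hy x hx e), dif_pos h,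
      ic h.choose_spec.1 hx h.choose_spec.2]
  · rw [cf, dif_neg (fun ⟨y, hy, e⟩ => h1 y hy e), dif_neg (fun ⟨y, hy, e⟩ => h2 y hy e),
      dif_neg (fun ⟨y, hy, e⟩ => h3 y hy e)]

theorem cyc_exists (ia : InjOn a E) (ib : InjOn b E) (ic : InjOn c E) (hab : Dj E a b)
    (hac : Dj E a c) (hbc : Dj E b c) : ∃ π : Perm Ω, Cyc π E a b c := by
  obtain ⟨f1, f2, f3, f4⟩ := cf_spec ia ib ic hab hac hbc
  obtain ⟨g1, g2, g3, g4⟩ := cf_spec ia ic ib hac hab hbc.symm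
  refine ⟨⟨cf E a b c, cf E a c b, fun p => ?_, fun p => ?_⟩, f1, f2, f3, f4⟩
  · rcases cyc_cases E a b c p with ⟨x, hx, rfl⟩ | ⟨x, hx, rfl⟩ | ⟨x, hx, rfl⟩ | ⟨h1, h2, h3⟩
    · rw [f1 x hx, g3 x hx]
    · rw [f2 x hx, g2 x hx]
    · rw [f3 x hx, g1 x hx]
    · rw [f4 p h1 h2 h3, g4 p h1 h3 h2]
  · rcases cyc_cases E a b c p with ⟨x, hx, rfl⟩ | ⟨x, hx, rfl⟩ | ⟨x, hx, rfl⟩ | ⟨h1, h2, h3⟩
    · rw [g1 x hx, f3 x hx]
    · rw [g3 x hx, f1 x hx]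
    · rw [g2 x hx, f2 x hx]
    · rw [g4 p h1 h3 h2, f4 p h1 h2 h3]

/-- good triples -/
structure Tri (E : Set X) (a b c : X → Ω) : Prop where
  ia : InjOn a E
  ib : InjOn b E
  ic : InjOn c E
  ab : Dj E a b
  ac : Dj E a c
  bc : Dj E b c

theorem Tri.mono (h : Tri E a b c) (hE : E' ⊆ E) : Tri E' a b c :=
  ⟨h.ia.mono hE, h.ib.mono hE, h.ic.mono hE, h.ab.mono hE, h.ac.mono hE, h.bc.mono hE⟩

theorem Tri.ex (h : Tri E a b c) : ∃ π : Perm Ω, Cyc π E a b c :=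
  cyc_exists h.ia h.ib h.ic h.ab h.ac h.bc

theorem Tri.rot (h : Tri E a b c) : Tri E b c a :=
  ⟨h.ib, h.ic, h.ia, h.bc, h.ab.symm, h.ac.symm⟩

theorem Cyc.fix_out (h : Cyc π E' a b c) (t : Tri E a b c) (hE : E' ⊆ E) {x : X} (hx : x ∈ E)
    (hx' : x ∉ E') : π (a x) = a x :=
  h.fix _ (fun y hy e => hx' (t.ia (hE hy) hx e ▸ hy)) (fun y hy e => t.ab x hx y (hE hy) e.symm)
    (fun y hy e => t.ac x hx y (hE hy) e.symm)

theorem Cyc.mul (h : Cyc π E a b c) (h' : Cyc π' E' a b c) (hd : Disjoint E E')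
    (t : Tri (E ∪ E') a b c) : Cyc (π * π') (E ∪ E') a b c := by
  have key : ∀ {a b c : X → Ω}, Cyc π E a b c → Cyc π' E' a b c → Tri (E ∪ E') a b c →
      ∀ x ∈ E ∪ E', (π * π') (a x) = b x := by
    intro a b c h h' t x hx
    rcases hx with hx | hx
    · rw [Perm.mul_apply, h'.fix_out t subset_union_right (Or.inl hx) (disjoint_left.1 hd hx),
        h.ab x hx]
    · rw [Perm.mul_apply, h'.ab x hx,
        h.rot.fix_out t.rot subset_union_left (Or.inr hx) (disjoint_right.1 hd hx)]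
  refine ⟨key h h' t, key h.rot h'.rot t.rot, key h.rot.rot h'.rot.rot t.rot.rot,
    fun p h1 h2 h3 => ?_⟩
  rw [Perm.mul_apply, h'.fix p (fun x hx => h1 x (Or.inr hx)) (fun x hx => h2 x (Or.inr hx))
    (fun x hx => h3 x (Or.inr hx)), h.fix p (fun x hx => h1 x (Or.inl hx))
    (fun x hx => h2 x (Or.inl hx)) (fun x hx => h3 x (Or.inl hx))]

theorem Cyc.diff (h : Cyc π E a b c) (h' : Cyc π' E' a b c) (hE : E' ⊆ E) (t : Tri E a b c) :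
    Cyc (π * π'⁻¹) (E \ E') a b c := by
  obtain ⟨σ, hσ⟩ := (t.mono (sdiff_subset (t := E'))).ex
  have h1 := hσ.mul h' disjoint_sdiff_left (by rwa [sdiff_union_of_subset hE])
  rw [sdiff_union_of_subset hE] at h1
  rw [h.uniq h1, mul_inv_cancel_right]
  exact hσ

theorem Cyc.mul3 (h : Cyc π E a b c) (h' : Cyc π' E a b e) (hce : Dj E c e) (hae : Dj E a e)
    (hbe : Dj E b e) (hac : Dj E a c) (hbc : Dj E b c) : Cyc (π * π'⁻¹) E a e c := by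
  have hi := h'.inv
  refine ⟨fun x hx => ?_, fun x hx => ?_, fun x hx => ?_, fun p h1 h2 h3 => ?_⟩
  · rw [Perm.mul_apply, hi.ab x hx]
    exact h.fix _ (fun y hy => hae y hy x hx) (fun y hy => hbe y hy x hx)
      (fun y hy => hce y hy x hx)
  · rw [Perm.mul_apply, hi.bc x hx, h.bc x hx]
  · rw [Perm.mul_apply, hi.fix _ (fun y hy => hac y hy x hx) (fun y hy => hce.symm y hy x hx)
      (fun y hy => hbc y hy x hx), h.ca x hx]
  · by_cases hb : ∃ x ∈ E, b x = p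
    · obtain ⟨x, hx, rfl⟩ := hb
      rw [Perm.mul_apply, hi.ca x hx, h.ab x hx]
    · push Not at hb
      rw [Perm.mul_apply, hi.fix p h1 h2 hb, h.fix p h1 hb h3]

/-- a map into one track -/
def tr {ι : Type} (f : X → X) (i : ι) : X → X × ι := fun x => (f x, i)

@[simp] theorem tr_apply {ι : Type} (f : X → X) (i : ι) (x : X) : tr f i x = (f x, i) := rfl

theorem tr_inj {ι : Type} {f : X → X} (i : ι) (h : InjOn f E) : InjOn (tr f i) E :=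
  fun _ hx _ hy e => h hx hy (congrArg Prod.fst e)

theorem tr_dj {ι : Type} (f g : X → X) {i j : ι} (h : i ≠ j) : Dj E (tr f i) (tr g j) :=
  fun _ _ _ _ e => h (congrArg Prod.snd e)

theorem tr_tri {ι : Type} {f g h : X → X} {i j l : ι} (hf : InjOn f E) (hg : InjOn g E)
    (hh : InjOn h E) (hij : i ≠ j) (hil : i ≠ l) (hjl : j ≠ l) :
    Tri E (tr f i) (tr g j) (tr h l) :=
  ⟨tr_inj i hf, tr_inj j hg, tr_inj l hh, tr_dj _ _ hij, tr_dj _ _ hil, tr_dj _ _ hjl⟩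

theorem Cyc.fix_tr {ι : Type} {π : Perm (X × ι)} {f g h : X → X} {i j l : ι}
    (hc : Cyc π E (tr f i) (tr g j) (tr h l)) (p : X × ι) (hi : i ≠ p.2) (hj : j ≠ p.2)
    (hl : l ≠ p.2) : π p = p :=
  hc.fix p (fun _ _ e => hi (congrArg Prod.snd e)) (fun _ _ e => hj (congrArg Prod.snd e))
    (fun _ _ e => hl (congrArg Prod.snd e))

end Pool.Agent.Lib.MP_1d2f05_al
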