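import Mathlib

set_option autoImplicit false

namespace Pool.Agent.Lib.MP_1d2f05_al

/-- `G` has a left-invariant finitely additive probability measure on all its subsets. -/
def HasMean (G : Type) [Group G] : Prop :=
  ∃ μ : Set G → ℝ, (∀ A, 0 ≤ μ A) ∧ μ Set.univ = 1 ∧
    (∀ A B : Set G, Disjoint A B → μ (A ∪ B) = μ A + μ B) ∧
    (∀ (g : G) (A : Set G), μ ((fun x : G => g * x) ⁻¹' A) = μ A)

/-- The smallest class of groups containing `P` and closed under subgroups, quotients,
extensions and directed unions. -/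
inductive Gen (P : (G : Type) → [Group G] → Prop) : (G : Type) → [Group G] → Prop
  | base (G : Type) [Group G] : P G → Gen P G
  | sub (G H : Type) [Group G] [Group H] (f : G →* H) :
      Function.Injective f → Gen P H → Gen P G
  | quot (G H : Type) [Group G] [Group H] (f : G →* H) :
      Function.Surjective f → Gen P G → Gen P H
  | ext (G : Type) [Group G] (N : Subgroup G) [N.Normal] :
      Gen P N → Gen P (G ⧸ N) → Gen P G
  | union (G : Type) [Group G] (S : Set (Subgroup G)) :
      DirectedOn (· ≤ ·) S → (∀ g : G, ∃ K ∈ S, g ∈ K) → (∀ K ∈ S, Gen P K) → Gen P G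

/-- finite or abelian -/
def FinAb (G : Type) [Group G] : Prop := Finite G ∨ ∀ a b : G, a * b = b * a

/-- some alternating group is not a quotient of a subgroup of `G` -/
def Omits (G : Type) [Group G] : Prop :=
  ∃ m : ℕ, ∀ (K : Subgroup G) (f : K →* alternatingGroup (Fin m)), ¬ Function.Surjective f

/-- every orbit is dense -/
def Minimal {X : Type} [TopologicalSpace X] (G : Subgroup (X ≃ₜ X)) : Prop :=
  ∀ x : X, Dense {y : X | ∃ g ∈ G, g x = y}

/-- `G` equals its topological full group -/
def IsFull {X : Type} [TopologicalSpace X] (G : Subgroup (X ≃ₜ X)) : Prop :=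
  ∀ h : X ≃ₜ X, (∀ x : X, ∃ V ∈ nhds x, ∃ g ∈ G, ∀ y ∈ V, h y = g y) → h ∈ G

/-- `H` consists of the elements of `G` that fix every point outside `U` -/
def IsRist {X : Type} [TopologicalSpace X] (G : Subgroup (X ≃ₜ X)) (U : Set X)
    (H : Subgroup (X ≃ₜ X)) : Prop :=
  ∀ g : X ≃ₜ X, g ∈ H ↔ (g ∈ G ∧ ∀ x ∉ U, g x = x)

end Pool.Agent.Lib.MP_1d2f05_al
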