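import Pool.Agent.Lib.MP_1d2f05_al.Restr

set_option autoImplicit false

namespace Pool.Agent.Lib.MP_1d2f05_al

open Function Equiv Set

variable {X : Type} {S : Set X → (X → X) → Prop} {E E' D O : Set X} {f g h : X → X}
  {A : (G : Type) → [Group G] → Prop} {N : Subgroup (Perm (X × T8))}

def Zp (S : Set X → (X → X) → Prop) (γ : Perm (X × T8)) : Prop :=
  ∀ D i x, S D id → x ∈ D → (γ (x, i)).1 ∈ D ∧ (γ (x, i)).2 = i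

def Sec (Λ : Type) [Group Λ] (S : Set X → (X → X) → Prop) : Prop :=
  ∃ R : Subgroup (Λ × Perm (X × T8)), (∀ γ ∈ Gam S, ∃ a, (a, γ) ∈ R) ∧ (∀ q ∈ R, q.2 ∈ Gam S) ∧
    ∀ γ, (1, γ) ∈ R → Zp S γ

def Good (S : Set X → (X → X) → Prop) (N : Subgroup (Perm (X × T8))) (D : Set X) : Prop :=
  S D id ∧ ∃ γ ∈ N, ∃ i, ∀ x ∈ D, ∀ y ∈ D, γ (x, i) ≠ (y, i)

def mov (S : Set X → (X → X) → Prop) (N : Subgroup (Perm (X × T8))) : Set X :=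
  {x | ∃ D, Good S N D ∧ x ∈ D}

theorem opn_mov : Opn S (mov S N) := fun _ ⟨D, h1, h2⟩ => ⟨D, h1.1, h2, fun _ hy => ⟨D, h1, hy⟩⟩

theorem inv_mov (hS : Sys S) (hN : ∀ γ ∈ Gam S, ∀ n ∈ N, γ * n * γ⁻¹ ∈ N) :
    Inv S (mov S N) := by
  have key : ∀ E f, S E f → ∀ x ∈ E, x ∈ mov S N → f x ∈ mov S N := by
    rintro E f hf x hx ⟨D, ⟨h1, γ, hγ, i, h2⟩, h3⟩
    obtain ⟨j, hj⟩ := fresh [i] (by simp)
    obtain ⟨w, hw⟩ := fresh [i, j] (by simp)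
    simp only [List.mem_cons, List.not_mem_nil, or_false, not_or] at hj hw
    have h4 := hS.restr hf h1
    obtain ⟨σ, hσ⟩ := (tr_tri (injOn_id _) (hS.inj h4) (injOn_id _) (Ne.symm hj) (Ne.symm hw.1)
      (Ne.symm hw.2)).ex
    have hσG := m_gam hS (hS.dom h4) h4 (hS.dom h4) (Ne.symm hj) (Ne.symm hw.1) (Ne.symm hw.2) σ hσ
    refine ⟨f '' (E ∩ D), ⟨hS.ran h4, _, hN σ hσG γ hγ, j, ?_⟩, x, ⟨hx, h3⟩, rfl⟩
    rintro _ ⟨y, hy, rfl⟩ _ ⟨z, hz, rfl⟩ e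
    rw [← show σ (y, i) = (f y, j) from hσ.ab y hy, ← show σ (z, i) = (f z, j) from hσ.ab z hz] at e
    simp only [Perm.coe_mul, comp_apply, Perm.coe_inv, symm_apply_apply,
      EmbeddingLike.apply_eq_iff_eq] at e
    exact h2 y hy.2 z hz.2 e
  intro E f hf x hx
  refine ⟨key E f hf x hx, fun h => ?_⟩
  obtain ⟨g, h1, h2⟩ := hS.inv hf
  have := key _ g h1 _ ⟨x, hx, rfl⟩ h
  rwa [h2 x hx] at this

theorem zp_SY (hS : Sys S) (hle : N ≤ Gam S) (hO : Inv S (mov S N)) {γ b : Perm (X × T8)}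
    (hγ : γ ∈ N) (hb : Agr (mov S N) γ b) : Zp (SY S (mov S N)) b := by
  intro D i x hD hx
  obtain ⟨D0, h0, rfl⟩ := hD.id hS
  rw [← hb (x, i) hx.2]
  obtain ⟨_, _, _, h3⟩ := gam_le_full hS (hle hγ)
  obtain ⟨D1, f, j, a1, a2, a3⟩ := h3 (x, i) ⟨D0, h0, hx.1⟩
  have a4 : ∀ y ∈ D1, γ (y, i) = (f y, j) := a3
  rw [a4 x a1]
  have hj : j = i := by
    by_contra hj
    refine hx.2 ⟨D1, ⟨hS.dom a2, γ, hγ, i, fun y hy z _ e => hj ?_⟩, a1⟩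
    rw [a4 y hy] at e
    exact congrArg Prod.snd e
  refine ⟨⟨?_, fun h => hx.2 ((hO _ _ a2 x a1).2 h)⟩, hj⟩
  by_contra hf
  refine hx.2 ⟨(D1 ∩ D0) \ (D1 ∩ f ⁻¹' D0), ⟨hS.diff (hS.restr (hS.dom a2) h0)
    (hS.dom (hS.pre a2 h0)), γ, hγ, i, fun y hy z hz e => ?_⟩, ⟨a1, hx.1⟩, fun h => hf h.2⟩
  rw [a4 y hy.1.1] at e
  have : f y = z := congrArg Prod.fst e
  exact hy.2 ⟨hy.1.1, show f y ∈ D0 from this ▸ hz.1.2⟩

theorem dcl_loc (hS : Sys S) (hle : N ≤ Gam S) (hN : ∀ γ ∈ Gam S, ∀ n ∈ N, γ * n * γ⁻¹ ∈ N)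
    {x : X} (hx : x ∈ mov S N) : ∃ D, x ∈ D ∧ S D id ∧ ∃ a b c : T8, a ≠ b ∧ a ≠ c ∧ b ≠ c ∧
      ∀ D' ⊆ D, S D' id → M N D' id a id b id c := by
  obtain ⟨D0, ⟨h0, γ, hγ, i, hi⟩, hx0⟩ := hx
  have hγG := hle hγ
  obtain ⟨_, _, _, h3⟩ := gam_le_full hS hγG
  obtain ⟨_, _, _, h4⟩ := gam_le_full hS (Subgroup.inv_mem _ hγG)
  have h5 := fun t : T8 => h3 (x, t) ⟨D0, h0, hx0⟩
  choose W f u hW1 hW2 hW3 using h5
  obtain ⟨D1, g, i1, b1, b2, b3⟩ := h4 (x, i) ⟨D0, h0, hx0⟩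
  obtain ⟨q, hq⟩ := fresh [i, i1] (by simp)
  obtain ⟨r, hr⟩ := fresh [i, i1, q] (by simp)
  obtain ⟨s, hs⟩ := fresh [i, q, r, u i, u q, u r] (by simp)
  obtain ⟨t, ht⟩ := fresh [i, q, r, u i, u q, u r, s] (by simp)
  simp only [List.mem_cons, List.not_mem_nil, or_false, not_or] at hq hr hs ht
  refine ⟨(D0 ∩ D1) ∩ ⋂ t, W t, ⟨⟨hx0, b1⟩, mem_iInter.2 hW1⟩,
    hS.iInter W (fun t => hS.dom (hW2 t)) (hS.restr h0 (hS.dom b2)), q, i, s, hq.1,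
    Ne.symm hs.2.1, Ne.symm hs.1, fun D hD hSD => ?_⟩
  have hu : ∀ t, ∀ y ∈ D, (γ (y, t)).2 = u t := fun t y hy =>
    congrArg Prod.snd (hW3 t y (mem_iInter.1 (hD hy).2 t))
  have hi1 : ∀ y ∈ D, (γ⁻¹ (y, i)).2 = i1 := fun y hy => congrArg Prod.snd (b3 y (hD hy).1.2)
  obtain ⟨c, hc⟩ := (tr_tri (injOn_id D) (injOn_id D) (injOn_id D) (Ne.symm hq.1) (Ne.symm hr.1)
    (Ne.symm hr.2.2)).ex
  have hcG := m_gam hS hSD hSD hSD (Ne.symm hq.1) (Ne.symm hr.1) (Ne.symm hr.2.2) c hc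
  obtain ⟨d, hd⟩ := (tr_tri (injOn_id D) (injOn_id D) (injOn_id D) (Ne.symm hs.1) (Ne.symm ht.1)
    (Ne.symm ht.2.2.2.2.2.2)).ex
  have hdG := m_gam hS hSD hSD hSD (Ne.symm hs.1) (Ne.symm ht.1) (Ne.symm ht.2.2.2.2.2.2) d hd
  have hfix : ∀ k, u k ≠ s → u k ≠ t → (k = i ∨ k ≠ i1) → ∀ y ∈ D, d (γ (y, k)) = γ (y, k) := by
    intro k k1 k2 k3 y hy
    refine hd.fix _ (fun z hz e => ?_) (fun z _ e => k1 ?_) (fun z _ e => k2 ?_)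
    · rcases k3 with rfl | k3
      · exact hi y (hD hy).1.1 z (hD hz).1.1 e.symm
      · have e2 : γ⁻¹ (z, i) = (y, k) := by rw [Perm.inv_eq_iff_eq]; exact e
        have := hi1 z hz
        rw [e2] at this
        exact k3 this
    · rw [← hu k y hy, ← e]; rfl
    · rw [← hu k y hy, ← e]; rfl
  have he := hc.conj γ
  have e1 : d * (γ * c * γ⁻¹) * d⁻¹ = γ * c * γ⁻¹ := by
    refine ((he.conj d).congr ?_ ?_ ?_).uniq he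
    · exact fun y hy => hfix i (Ne.symm hs.2.2.2.1) (Ne.symm ht.2.2.2.1) (Or.inl rfl) y hy
    · exact fun y hy => hfix q (Ne.symm hs.2.2.2.2.1) (Ne.symm ht.2.2.2.2.1) (Or.inr hq.2) y hy
    · exact fun y hy => hfix r (Ne.symm hs.2.2.2.2.2) (Ne.symm ht.2.2.2.2.2.1) (Or.inr hr.2.1) y hy
  have n1 : γ * (c * γ⁻¹ * c⁻¹) ∈ N := N.mul_mem hγ (hN c hcG _ (N.inv_mem hγ))
  have n2 := N.mul_mem (N.inv_mem (hN d hdG _ n1)) n1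
  have e2 : (d * (γ * (c * γ⁻¹ * c⁻¹)) * d⁻¹)⁻¹ * (γ * (c * γ⁻¹ * c⁻¹)) = d * c * d⁻¹ * c⁻¹ := by
    have : d * (γ * (c * γ⁻¹ * c⁻¹)) * d⁻¹ = (d * (γ * c * γ⁻¹) * d⁻¹) * (d * c⁻¹ * d⁻¹) := by group
    rw [this, e1]
    group
  rw [e2] at n2
  have hc' : Cyc (d * c * d⁻¹) D (tr id s) (tr id q) (tr id r) :=
    (hc.conj d).congr (fun y hy => hd.ab y hy)
      (fun y _ => hd.fix_tr _ (Ne.symm hq.1) hs.2.1 ht.2.1)
      (fun y _ => hd.fix_tr _ (Ne.symm hr.1) hs.2.2.1 ht.2.2.1)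
  have := hc'.rot.mul3 hc.rot (tr_dj _ _ hs.1) (tr_dj _ _ hq.1) (tr_dj _ _ hr.1)
    (tr_dj _ _ (Ne.symm hs.2.1)) (tr_dj _ _ (Ne.symm hs.2.2.1))
  exact fun π hπ => hπ.uniq this ▸ n2

theorem dcl (hS : Sys S) (hle : N ≤ Gam S) (hN : ∀ γ ∈ Gam S, ∀ n ∈ N, γ * n * γ⁻¹ ∈ N) :
    Gam (SO S (mov S N)) ≤ N := by
  refine (Subgroup.closure_le _).2 ?_
  rintro π ⟨E, f, i, j, l, ⟨h1, h2⟩, a1, a2, a3, hc⟩
  have t := tr_tri (injOn_id E) (injOn_id E) (hS.inj h1) a1 a2 a3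
  refine hS.ind (hS.dom h1) (fun D => M N D id i id j f l) M.empty ?_ ?_ π hc
  · intro D D' _ _ b1 b2 b3 b4 b5
    exact b4.union b5 b3 (t.mono (union_subset b1 b2))
  · intro x hx
    obtain ⟨D, b1, b2, a, b, c, c1, c2, c3, c4⟩ := dcl_loc hS hle hN (h2 hx)
    exact ⟨D, b1, b2, fun D' d1 d2 d3 => (c4 D' d1 d3).all hS hN d3 d3 d3 c1 c2 c3 d3 d3
      (hS.sub h1 d3 d2) a1 a2 a3⟩

theorem sec_ext (hS : Sys S) {Λ : Type} [Group Λ] (K : Subgroup Λ) [hK : K.Normal]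
    (h : Sec Λ S) : ∃ O, ∃ (_ : Inv S O) (_ : Opn S O), Sec K (SO S O) ∧ Sec (Λ ⧸ K) (SY S O) := by
  obtain ⟨R, h1, h2, h3⟩ := h
  let N : Subgroup (Perm (X × T8)) :=
    { carrier := {γ | ∃ a ∈ K, (a, γ) ∈ R}
      one_mem' := ⟨1, K.one_mem, R.one_mem⟩
      mul_mem' := fun ⟨a, a1, a2⟩ ⟨b, b1, b2⟩ => ⟨a * b, K.mul_mem a1 b1, R.mul_mem a2 b2⟩
      inv_mem' := fun ⟨a, a1, a2⟩ => ⟨a⁻¹, K.inv_mem a1, R.inv_mem a2⟩ }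
  have hle : N ≤ Gam S := fun γ ⟨a, _, a2⟩ => h2 _ a2
  have hN : ∀ γ ∈ Gam S, ∀ n ∈ N, γ * n * γ⁻¹ ∈ N := by
    rintro γ hγ n ⟨a, a1, a2⟩
    obtain ⟨b, hb⟩ := h1 γ hγ
    exact ⟨b * a * b⁻¹, hK.conj_mem a a1 b, R.mul_mem (R.mul_mem hb a2) (R.inv_mem hb)⟩
  have hO := inv_mov hS hN
  have hP : Opn S (mov S N) := opn_mov
  refine ⟨mov S N, hO, hP, ?_, ?_⟩
  · refine ⟨{ carrier := {q | (q.1.1, q.2) ∈ R ∧ q.2 ∈ Gam (SO S (mov S N))}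
              one_mem' := ⟨R.one_mem, Subgroup.one_mem _⟩
              mul_mem' := fun a b => ⟨R.mul_mem a.1 b.1, Subgroup.mul_mem _ a.2 b.2⟩
              inv_mem' := fun a => ⟨R.inv_mem a.1, Subgroup.inv_mem _ a.2⟩ },
      fun γ hγ => ?_, fun q hq => hq.2, fun γ hγ D i x hD hx => h3 γ hγ.1 D i x hD.1 hx⟩
    obtain ⟨a, a1, a2⟩ := dcl hS hle hN hγ
    exact ⟨⟨a, a1⟩, a2, hγ⟩
  · have hF := gam_le_full (sys_SY hS hO hP)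
    refine ⟨{ carrier := {q | q.2 ∈ Gam (SY S (mov S N)) ∧ ∃ a γ, (a, γ) ∈ R ∧
                q.1 = QuotientGroup.mk a ∧ Agr (mov S N) γ q.2}
              one_mem' := ⟨Subgroup.one_mem _, 1, 1, R.one_mem, rfl, fun _ _ => rfl⟩
              mul_mem' := ?_
              inv_mem' := ?_ }, fun b hb => ?_, fun q hq => hq.1, ?_⟩
    · rintro q q' ⟨a1, a, γ, a2, a3, a4⟩ ⟨b1, b, γ', b2, b3, b4⟩
      exact ⟨Subgroup.mul_mem _ a1 b1, a * b, γ * γ', R.mul_mem a2 b2, by simp [a3, b3],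
        a4.mul b4 (full_SY_pres hS hO hP (hF b1))⟩
    · rintro q ⟨a1, a, γ, a2, a3, a4⟩
      exact ⟨Subgroup.inv_mem _ a1, a⁻¹, γ⁻¹, R.inv_mem a2, by simp [a3],
        a4.inv (full_SY_pres hS hO hP (Subgroup.inv_mem _ (hF a1)))⟩
    · obtain ⟨γ, a1, a2⟩ := gam_lift hS hO hP hb
      obtain ⟨a, ha⟩ := h1 γ a1
      exact ⟨QuotientGroup.mk a, hb, a, γ, ha, rfl, a2⟩
    · rintro b ⟨_, a, γ, a2, a3, a4⟩
      exact zp_SY hS hle hO ⟨a, (QuotientGroup.eq_one_iff a).1 a3.symm, a2⟩ a4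

theorem full_ext (hA : Cls A) (hS : Sys S) (hO : Inv S O) (hP : Opn S O) (n : ℕ) (hG : A (Gam S))
    (h1 : A (Full (sys_SO hS hO) (Fin n))) (h2 : A (Full (sys_SY hS hO hP) (Fin n))) :
    A (Full hS (Fin n)) := by
  let R : Subgroup (Full (sys_SY hS hO hP) (Fin n) × Perm (X × Fin n)) :=
    { carrier := {q | q.2 ∈ Full hS (Fin n) ∧ Agr O q.2 q.1.1}
      one_mem' := ⟨Subgroup.one_mem _, fun _ _ => rfl⟩
      mul_mem' := fun {a b} h1 h2 => ⟨Subgroup.mul_mem _ h1.1 h2.1,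
        h1.2.mul h2.2 (full_SY_pres hS hO hP b.1.2)⟩
      inv_mem' := fun {a} h1 => ⟨Subgroup.inv_mem _ h1.1,
        h1.2.inv (full_SY_pres hS hO hP (Subgroup.inv_mem _ a.1.2))⟩ }
  let K : Subgroup (Perm (X × Fin n)) := R.comap (MonoidHom.inr _ _)
  refine hA.corr _ K R h2 (tr_lemma hA hS hO n hG h1 K fun π hπ => ⟨hπ.1, ?_⟩)
    (fun π hπ => ?_) fun π hπ => hπ
  · obtain ⟨⟨E, a1, a2, a3⟩, a4⟩ := hπ
    have a5 : ∀ p : X × Fin n, p.1 ∉ O → π p = p := a4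
    have key : ∀ i : Fin n, ∃ W, S W id ∧ W ⊆ O ∧ ∀ y ∈ E, y ∉ W → (π (y, i)).2 = i := by
      intro i
      refine hS.ind a1 (fun D => ∃ W, S W id ∧ W ⊆ O ∧ ∀ y ∈ D, y ∉ W → (π (y, i)).2 = i)
        ⟨∅, hS.empty, by simp⟩ ?_ ?_
      · rintro D D' _ _ _ _ _ ⟨t, b1, b2, b3⟩ ⟨t', c1, c2, c3⟩
        exact ⟨t ∪ t', hS.union b1 c1, union_subset b2 c2, fun y hy hn =>
          hy.elim (fun h => b3 y h fun h' => hn (Or.inl h')) fun h => c3 y h fun h' => hn (Or.inr h')⟩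
      · intro x hx
        obtain ⟨D, f, j, b1, b2, b3⟩ := a3 (x, i) ⟨E, a1, hx⟩
        have b4 : ∀ y ∈ D, π (y, i) = (f y, j) := b3
        refine ⟨D, b1, hS.dom b2, fun D' c1 _ c3 => ?_⟩
        by_cases hj : j = i
        · exact ⟨∅, hS.empty, empty_subset _, fun y hy _ => by rw [b4 y (c1 hy), hj]⟩
        · refine ⟨D', c3, fun y hy => ?_, fun y hy hn => absurd hy hn⟩
          by_contra hyO
          have := a5 (y, i) hyO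
          rw [b4 y (c1 hy)] at this
          exact hj (congrArg Prod.snd this)
    choose W b1 b2 b3 using key
    refine ⟨⋃ i, W i, hS.iUnion W b1, iUnion_subset b2, fun p hp => ?_⟩
    by_cases hpE : p.1 ∈ E
    · exact b3 p.2 p.1 hpE fun h => hp (mem_iUnion.2 ⟨_, h⟩)
    · exact congrArg Prod.snd (a2 p hpE)
  · obtain ⟨b, b1, b2⟩ := exists_res hS hO hP hπ
    exact ⟨⟨b, b1⟩, hπ, b2⟩

end Pool.Agent.Lib.MP_1d2f05_al
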