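import Pool.Agent.Lib.MP_1d2f05_al.Sys

set_option autoImplicit false

namespace Pool.Agent.Lib.MP_1d2f05_al

open Function Equiv Set

variable {X : Type} {S : Set X → (X → X) → Prop} {E E' D : Set X} {f g h : X → X}
  {N Γ : Subgroup (Perm (X × T8))} {i j l v w : T8}

theorem M.mv' {f' k : X → X} (hM : M Γ E f i g j h l) (hE : E ⊆ E')
    (hΓ : M Γ E' f i f' v k w) (i1 : InjOn f E') (i2 : InjOn f' E') (i3 : InjOn k E')
    (hij : i ≠ j) (hil : i ≠ l) (hv : v ∉ [i, j, l]) (hw : w ∉ [i, j, l, v]) :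
    M Γ E f' v g j h l := by
  simp only [List.mem_cons, List.not_mem_nil, or_false, not_or] at hv hw
  obtain ⟨σ, hσ⟩ := (tr_tri i1 i2 i3 (Ne.symm hv.1) (Ne.symm hw.1) (Ne.symm hw.2.2.2)).ex
  intro π hπ
  have h1 := (hπ.conj σ⁻¹).congr (a' := tr f i) (b' := tr g j) (c' := tr h l)
    (fun x hx => hσ.inv.ca x (hE hx))
    (fun x _ => hσ.inv.fix_tr _ hij hw.2.1 hv.2.1)
    (fun x _ => hσ.inv.fix_tr _ hil hw.2.2.1 hv.2.2)
  have := self_conj Γ σ (hΓ σ hσ) _ (hM _ h1)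
  simpa [mul_assoc] using this

theorem Tri.comp {Ω : Type} {a b c : X → Ω} (t : Tri E a b c) (σ : Perm Ω) :
    Tri E (σ ∘ a) (σ ∘ b) (σ ∘ c) :=
  ⟨σ.injective.comp_injOn t.ia, σ.injective.comp_injOn t.ib, σ.injective.comp_injOn t.ic,
    fun x hx y hy e => t.ab x hx y hy (σ.injective e),
    fun x hx y hy e => t.ac x hx y hy (σ.injective e),
    fun x hx y hy e => t.bc x hx y hy (σ.injective e)⟩

theorem Q.congr (hf : Q Γ E f) (e : EqOn f g E) : Q Γ E g :=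
  ⟨hf.1.congr e, fun i j l h1 h2 h3 π hπ => hf.2 i j l h1 h2 h3 π
    (hπ.congr (fun _ _ => rfl) (fun _ _ => rfl) fun x hx => by simp [e hx])⟩

theorem Q.inv (hf : Q Γ E f) (hg : ∀ x ∈ E, g (f x) = x) : Q Γ (f '' E) g := by
  refine ⟨?_, fun i j l h1 h2 h3 π hπ => ?_⟩
  · rintro _ ⟨x, hx, rfl⟩ _ ⟨y, hy, rfl⟩ e
    rw [hg x hx, hg y hy] at e
    rw [e]
  · rw [cyc_image] at hπ
    exact hf.three hf hf.dom h1 h2 h3 π
      (hπ.congr (fun _ _ => rfl) (fun _ _ => rfl) fun x hx => by simp [hg x hx])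

theorem Q.comp (hf : Q Γ E f) (hg : Q Γ E' g) : Q Γ (E ∩ f ⁻¹' E') (g ∘ f) := by
  have hinj : InjOn (g ∘ f) (E ∩ f ⁻¹' E') :=
    hg.1.comp (hf.1.mono inter_subset_left) fun x hx => hx.2
  refine ⟨hinj, fun i j m hij him hjm => ?_⟩
  obtain ⟨l, hl⟩ := fresh [i, j, m] (by simp)
  obtain ⟨r, hr⟩ := fresh [i, j, m, l] (by simp)
  obtain ⟨b, hb⟩ := fresh [i, j, m, l, r] (by simp)
  simp only [List.mem_cons, List.not_mem_nil, or_false, not_or] at hl hr hb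
  have hsub : E ∩ f ⁻¹' E' ⊆ E := inter_subset_left
  have hun : (E ∩ f ⁻¹' E') ∪ (E \ (E ∩ f ⁻¹' E')) = E := union_sdiff_cancel hsub
  have t : Tri E (tr id j) (tr id b) (tr f l) :=
    tr_tri (injOn_id E) (injOn_id E) hf.1 (Ne.symm hb.2.1) (Ne.symm hl.2.1) hb.2.2.2.1
  obtain ⟨c, hc⟩ := t.ex
  have hcΓ := hf.2 j b l (Ne.symm hb.2.1) (Ne.symm hl.2.1) hb.2.2.2.1 c hc
  obtain ⟨d, hd⟩ := (tr_tri (injOn_id E') hg.1 hg.1 hl.2.2 (Ne.symm hr.2.2.2)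
    (Ne.symm hr.2.2.1)).ex
  have hdΓ := hg.dom.three hg hg hl.2.2 (Ne.symm hr.2.2.2) (Ne.symm hr.2.2.1) d hd
  obtain ⟨c1, hc1⟩ := (tr_tri (injOn_id _) (injOn_id _) hinj (Ne.symm hb.2.1) hjm hb.2.2.1).ex
  obtain ⟨c2, hc2⟩ := (t.mono (sdiff_subset (t := E ∩ f ⁻¹' E'))).ex
  obtain ⟨c3, hc3⟩ := (t.mono hsub).ex
  have e1 : c = c3 * c2 := by
    have := hc3.mul hc2 disjoint_sdiff_right (by rwa [hun])
    rw [hun] at this
    exact hc.uniq this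
  have dj : ∀ x, d (tr id j x) = tr id j x := fun x =>
    hd.fix_tr _ hl.2.1 (Ne.symm hjm) hr.2.1
  have db : ∀ x, d (tr id b x) = tr id b x := fun x =>
    hd.fix_tr _ (Ne.symm hb.2.2.2.1) (Ne.symm hb.2.2.1) (Ne.symm hb.2.2.2.2)
  have e2 : d * c * d⁻¹ = c1 * c2 := by
    have h1 : Cyc c1 (E ∩ f ⁻¹' E') (d ∘ tr id j) (d ∘ tr id b) (d ∘ tr f l) :=
      hc1.congr (fun x _ => (dj x).symm) (fun x _ => (db x).symm)
        fun x hx => (hd.ab (f x) hx.2).symm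
    have h2 : Cyc c2 (E \ (E ∩ f ⁻¹' E')) (d ∘ tr id j) (d ∘ tr id b) (d ∘ tr f l) :=
      hc2.congr (fun x _ => (dj x).symm) (fun x _ => (db x).symm) fun x hx => by
        refine (hd.fix _ (fun y hy e => hx.2 ⟨hx.1, ?_⟩) (fun y _ e => ?_) fun y _ e => ?_).symm
        · have : y = f x := congrArg Prod.fst e
          show f x ∈ E'
          rwa [← this]
        · exact hl.2.2 (congrArg Prod.snd e).symm
        · exact hr.2.2.2 (congrArg Prod.snd e)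
    have := h1.mul h2 disjoint_sdiff_right (by rw [hun]; exact t.comp d)
    rw [hun] at this
    exact (hc.conj d).uniq this
  have hm : c1 * c3⁻¹ ∈ Γ := by
    have : c1 * c3⁻¹ = d * c * d⁻¹ * c⁻¹ := by rw [e2, e1]; group
    rw [this]
    exact Γ.mul_mem (self_conj Γ d hdΓ c hcΓ) (Γ.inv_mem hcΓ)
  have h3 := hc1.mul3 hc3 (tr_dj _ _ (Ne.symm hl.2.2)) (tr_dj _ _ (Ne.symm hl.2.1))
    (tr_dj _ _ hb.2.2.2.1) (tr_dj _ _ hjm) (tr_dj _ _ hb.2.2.1)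
  have h4 : M Γ (E ∩ f ⁻¹' E') id j f l (g ∘ f) m := fun π hπ => hπ.uniq h3 ▸ hm
  have h5 := h4.rot.mv' hsub (hf.2 i r l (Ne.symm hr.1) (Ne.symm hl.1) hr.2.2.2).rot.rot hf.1
    (injOn_id E) (injOn_id E) hl.2.2 hl.2.1 (by simp [Ne.symm hl.1, him, hij]) (by simp [hr])
  intro π hπ
  exact (Γ.inv_mem_iff).1 (h5 _ hπ.inv)

theorem Q.diff (hf : Q Γ E f) (hd : Q Γ E' id) : Q Γ (E \ E') f := by
  refine ⟨hf.1.mono sdiff_subset, fun i j l h1 h2 h3 π hπ => ?_⟩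
  have h4 := hd.comp hf
  have t : Tri E (tr id i) (tr id j) (tr f l) := tr_tri (injOn_id E) (injOn_id E) hf.1 h1 h2 h3
  obtain ⟨σ, hσ⟩ := t.ex
  have hs : E' ∩ id ⁻¹' E ⊆ E := fun x hx => hx.2
  obtain ⟨τ, hτ⟩ := (t.mono hs).ex
  have h5 := hσ.diff hτ hs t
  have e : E \ (E' ∩ id ⁻¹' E) = E \ E' := by
    ext x
    simp only [mem_sdiff, mem_inter_iff, mem_preimage, id]
    tauto
  rw [e] at h5
  rw [hπ.uniq h5]
  exact Γ.mul_mem (hf.2 i j l h1 h2 h3 σ hσ) (Γ.inv_mem (h4.2 i j l h1 h2 h3 τ hτ))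

theorem Q.union (h1 : Q Γ E id) (h2 : Q Γ E' id) : Q Γ (E ∪ E') id := by
  refine ⟨injOn_id _, fun i j l a b c => ?_⟩
  rw [← union_sdiff_self]
  exact (h1.2 i j l a b c).union ((h2.diff h1).2 i j l a b c) disjoint_sdiff_right
    (tr_tri (injOn_id _) (injOn_id _) (injOn_id _) a b c)

inductive GenS (B : Set (Set X × (X → X))) : Set X → (X → X) → Prop
  | base {E : Set X} {f : X → X} : (E, f) ∈ B → GenS B E f
  | congr {E : Set X} {f g : X → X} : GenS B E f → EqOn f g E → GenS B E g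
  | dom {E : Set X} {f : X → X} : GenS B E f → GenS B E id
  | inv {E : Set X} {f g : X → X} : GenS B E f → (∀ x ∈ E, g (f x) = x) → GenS B (f '' E) g
  | comp {E E' : Set X} {f g : X → X} : GenS B E f → GenS B E' g → GenS B (E ∩ f ⁻¹' E') (g ∘ f)
  | diff {E E' : Set X} {f : X → X} : GenS B E f → GenS B E' id → GenS B (E \ E') f
  | union {E E' : Set X} : GenS B E id → GenS B E' id → GenS B (E ∪ E') id
  | empty : GenS B ∅ id

theorem GenS.le (hS : Sys S) {B : Set (Set X × (X → X))} (hB : ∀ b ∈ B, S b.1 b.2)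
    (h : GenS B E f) : S E f := by
  induction h with
  | base hb => exact hB _ hb
  | congr _ e ih => exact hS.congr ih e
  | dom _ ih => exact hS.dom ih
  | inv _ hg ih =>
    obtain ⟨g', h1, h2⟩ := hS.inv ih
    refine hS.congr h1 ?_
    rintro _ ⟨x, hx, rfl⟩
    rw [h2 x hx, hg x hx]
  | comp _ _ ih1 ih2 => exact hS.comp ih1 ih2
  | diff _ _ ih1 ih2 => exact hS.diff ih1 ih2
  | union _ _ ih1 ih2 => exact hS.union ih1 ih2
  | empty => exact hS.empty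

theorem sys_gen (hS : Sys S) {B : Set (Set X × (X → X))} (hB : ∀ b ∈ B, S b.1 b.2) :
    Sys (GenS B) where
  inj h := hS.inj (h.le hS hB)
  congr := GenS.congr
  dom := GenS.dom
  inv {E f} h := by
    classical
    have hi := hS.inj (h.le hS hB)
    let g : X → X := fun y => if hy : ∃ x ∈ E, f x = y then hy.choose else y
    have hg : ∀ x ∈ E, g (f x) = x := by
      intro x hx
      have hy : ∃ y ∈ E, f y = f x := ⟨x, hx, rfl⟩
      simp only [g, dif_pos hy]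
      exact hi hy.choose_spec.1 hx hy.choose_spec.2
    exact ⟨g, h.inv hg, hg⟩
  comp := GenS.comp
  diff := GenS.diff
  union := GenS.union
  empty := GenS.empty
  cpt F h1 h2 h3 := hS.cpt F (h1.le hS hB) (fun D hD => (h2 D hD).le hS hB) h3

theorem GenS.q {B : Set (Set X × (X → X))} (hB : ∀ b ∈ B, Q Γ b.1 b.2) (h : GenS B E f) :
    Q Γ E f := by
  induction h with
  | base hb => exact hB _ hb
  | congr _ e ih => exact ih.congr e
  | dom _ ih => exact ih.dom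
  | inv _ hg ih => exact ih.inv hg
  | comp _ _ ih1 ih2 => exact ih1.comp ih2
  | diff _ _ ih1 ih2 => exact ih1.diff ih2
  | union _ _ ih1 ih2 => exact ih1.union ih2
  | empty => exact ⟨injOn_id _, fun _ _ _ _ _ _ => M.empty⟩

theorem gam_fg (hS : Sys S) {B : Set (Set X × (X → X))} (hB : ∀ b ∈ B, S b.1 b.2)
    (hf : B.Finite) : ∃ T : Set (Perm (X × T8)), T.Finite ∧ Gam (GenS B) = Subgroup.closure T := by
  let T : Set (Perm (X × T8)) := ⋃ b ∈ B, ⋃ i : T8, ⋃ j : T8, ⋃ l : T8,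
    {π | i ≠ j ∧ i ≠ l ∧ j ≠ l ∧ Cyc π b.1 (tr id i) (tr id j) (tr b.2 l)}
  refine ⟨T, ?_, le_antisymm ((Subgroup.closure_le _).2 ?_) (Subgroup.closure_mono ?_)⟩
  · refine hf.biUnion fun b _ => finite_iUnion fun i => finite_iUnion fun j =>
      finite_iUnion fun l => Set.Subsingleton.finite ?_
    exact fun π hπ π' hπ' => hπ.2.2.2.uniq hπ'.2.2.2
  · rintro π ⟨E, f, i, j, l, h1, h2, h3, h4, h5⟩
    refine (h1.q (Γ := Subgroup.closure T) fun b hb => ⟨hS.inj (hB b hb), ?_⟩).2 i j l h2 h3 h4 π h5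
    intro i j l a1 a2 a3 π hπ
    refine Subgroup.subset_closure ?_
    simp only [T, mem_iUnion]
    exact ⟨b, hb, i, j, l, a1, a2, a3, hπ⟩
  · intro π hπ
    simp only [T, mem_iUnion] at hπ
    obtain ⟨b, hb, i, j, l, a1, a2, a3, hπ⟩ := hπ
    exact ⟨b.1, b.2, i, j, l, GenS.base hb, a1, a2, a3, hπ⟩

theorem full_fg (hS : Sys S) {ι : Type} [Finite ι] {π : Perm (X × ι)} (hπ : π ∈ Full hS ι) :
    ∃ B : Set (Set X × (X → X)), B.Finite ∧ (∀ b ∈ B, S b.1 b.2) ∧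
      ∀ (B' : Set (Set X × (X → X))) (hB' : ∀ b ∈ B', S b.1 b.2), B ⊆ B' →
        π ∈ Full (sys_gen hS hB') ι := by
  obtain ⟨E, h1, h2, h3⟩ := hπ
  have key : ∀ i : ι, ∃ B : Set (Set X × (X → X)), B.Finite ∧ (∀ b ∈ B, S b.1 b.2) ∧
      ∀ x ∈ E, ∃ b ∈ B, ∃ j, x ∈ b.1 ∧ ∀ y ∈ b.1, π (y, i) = (b.2 y, j) := by
    intro i
    refine hS.ind h1 (fun D => ∃ B : Set (Set X × (X → X)), B.Finite ∧ (∀ b ∈ B, S b.1 b.2) ∧
      ∀ x ∈ D, ∃ b ∈ B, ∃ j, x ∈ b.1 ∧ ∀ y ∈ b.1, π (y, i) = (b.2 y, j))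
      ⟨∅, finite_empty, by simp, by simp⟩ ?_ ?_
    · rintro D D' _ _ _ _ _ ⟨B, a1, a2, a3⟩ ⟨B', b1, b2, b3⟩
      refine ⟨B ∪ B', a1.union b1, fun b hb => hb.elim (a2 b) (b2 b), fun x hx => ?_⟩
      rcases hx with hx | hx
      · obtain ⟨b, hb, r⟩ := a3 x hx
        exact ⟨b, Or.inl hb, r⟩
      · obtain ⟨b, hb, r⟩ := b3 x hx
        exact ⟨b, Or.inr hb, r⟩
    · intro x hx
      obtain ⟨D, f, j, a1, a2, a3⟩ := h3 (x, i) ⟨E, h1, hx⟩
      exact ⟨D, a1, hS.dom a2, fun D' hD' _ _ => ⟨{(D, f)}, finite_singleton _, by simpa using a2,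
        fun y hy => ⟨(D, f), rfl, j, hD' hy, a3⟩⟩⟩
  choose B hB1 hB2 hB3 using key
  refine ⟨insert (E, id) (⋃ i, B i), (finite_iUnion hB1).insert _, ?_, fun B' hB' hsub => ?_⟩
  · rintro b (rfl | hb)
    · exact h1
    · obtain ⟨i, hi⟩ := mem_iUnion.1 hb
      exact hB2 i b hi
  · refine mem_full _ (E := E) (GenS.base (hsub (mem_insert _ _))) h2 fun p hp => ?_
    obtain ⟨b, hb, j, a1, a2⟩ := hB3 p.2 p.1 hp
    exact ⟨b.1, b.2, j, a1, GenS.base (hsub (mem_insert_of_mem _ (mem_iUnion.2 ⟨_, hb⟩))), a2⟩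

end Pool.Agent.Lib.MP_1d2f05_al
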