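import Pool.Agent.Lib.MP_1d2f05_al.Cls

set_option autoImplicit false

namespace Pool.Agent.Lib.MP_1d2f05_al

open Function Filter Topology

/-- finitely additive probability -/
structure FA {X : Type} (μ : Set X → ℝ) : Prop where
  nn : ∀ A, 0 ≤ μ A
  univ : μ Set.univ = 1
  add : ∀ A B : Set X, Disjoint A B → μ (A ∪ B) = μ A + μ B

theorem FA.empty {X : Type} {μ : Set X → ℝ} (h : FA μ) : μ ∅ = 0 := by
  have := h.add ∅ ∅ (by simp)
  simp at this
  exact this

theorem FA.mono {X : Type} {μ : Set X → ℝ} (h : FA μ) {A B : Set X} (hAB : A ⊆ B) :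
    μ A ≤ μ B := by
  have := h.add A (B \ A) Set.disjoint_sdiff_right
  rw [Set.union_diff_cancel hAB] at this
  linarith [h.nn (B \ A)]

theorem FA.le_one {X : Type} {μ : Set X → ℝ} (h : FA μ) (A : Set X) : μ A ≤ 1 :=
  h.univ ▸ h.mono (Set.subset_univ A)

theorem FA.comap {X Y : Type} {μ : Set X → ℝ} (h : FA μ) (f : X → Y) :
    FA fun A : Set Y => μ (f ⁻¹' A) where
  nn _ := h.nn _
  univ := by simpa using h.univ
  add A B hAB := by
    rw [Set.preimage_union]
    exact h.add _ _ (hAB.preimage f)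

theorem hasMean_iff (G : Type) [Group G] : HasMean G ↔ ∃ μ : Set G → ℝ, FA μ ∧
    ∀ (g : G) (A : Set G), μ ((fun x : G => g * x) ⁻¹' A) = μ A :=
  ⟨fun ⟨μ, h1, h2, h3, h4⟩ => ⟨μ, ⟨h1, h2, h3⟩, h4⟩,
    fun ⟨μ, h, h4⟩ => ⟨μ, h.nn, h.univ, h.add, h4⟩⟩

theorem hasMean_of_approx {G : Type} [Group G] {ι : Type} (l : Filter ι) [l.NeBot]
    (μ : ι → Set G → ℝ) (h0 : ∀ i A, 0 ≤ μ i A) (h1 : ∀ i A, μ i A ≤ 1)
    (hu : Tendsto (fun i => μ i Set.univ) l (𝓝 1))
    (ha : ∀ A B, Disjoint A B → Tendsto (fun i => μ i (A ∪ B) - μ i A - μ i B) l (𝓝 0))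
    (hi : ∀ (g : G) A, Tendsto (fun i => μ i ((fun x : G => g * x) ⁻¹' A) - μ i A) l (𝓝 0)) :
    HasMean G := by
  let U : Ultrafilter ι := Ultrafilter.of l
  have hU : (U : Filter ι) ≤ l := Ultrafilter.of_le l
  have hex : ∀ A, ∃ c ∈ Set.Icc (0 : ℝ) 1, Tendsto (fun i => μ i A) U (𝓝 c) := by
    intro A
    have := isCompact_Icc.ultrafilter_le_nhds (U.map fun i => μ i A) (s := Set.Icc (0 : ℝ) 1) (by
      simp only [Ultrafilter.coe_map, le_principal_iff, mem_map]
      exact univ_mem' fun i => ⟨h0 i A, h1 i A⟩)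
    simpa [Tendsto] using this
  choose ν hν hlim using hex
  refine ⟨ν, fun A => (hν A).1, tendsto_nhds_unique (hlim _) (hu.mono_left hU), ?_, ?_⟩
  · intro A B hAB
    have := tendsto_nhds_unique (((hlim (A ∪ B)).sub (hlim A)).sub (hlim B))
      ((ha A B hAB).mono_left hU)
    linarith
  · intro g A
    have := tendsto_nhds_unique ((hlim _).sub (hlim A)) ((hi g A).mono_left hU)
    linarith

theorem FA.sum_fib {X ι : Type} {μ : Set X → ℝ} (h : FA μ) (τ : X → ι) (p : ι → Prop)
    [DecidablePred p] (s : Finset ι) :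
    μ {x | τ x ∈ s ∧ p (τ x)} = ∑ i ∈ s, if p i then μ (τ ⁻¹' {i}) else 0 := by
  classical
  induction s using Finset.induction_on with
  | empty => simpa using h.empty
  | insert a s ha ih =>
    rw [Finset.sum_insert ha, ← ih]
    by_cases hp : p a
    · rw [if_pos hp, ← h.add]
      · congr 1
        ext x
        simp only [Finset.mem_insert, Set.mem_setOf_eq, Set.mem_union, Set.mem_preimage,
          Set.mem_singleton_iff]
        constructor
        · rintro ⟨h1 | h1, h2⟩
          · exact Or.inl h1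
          · exact Or.inr ⟨h1, h2⟩
        · rintro (h1 | ⟨h1, h2⟩)
          · exact ⟨Or.inl h1, h1 ▸ hp⟩
          · exact ⟨Or.inr h1, h2⟩
      · rw [Set.disjoint_left]
        rintro x hx ⟨h1, _⟩
        have : τ x = a := hx
        exact ha (this ▸ h1)
    · rw [if_neg hp, zero_add]
      congr 1
      ext x
      simp only [Finset.mem_insert, Set.mem_setOf_eq]
      constructor
      · rintro ⟨h1 | h1, h2⟩
        · exact absurd (h1 ▸ h2) hp
        · exact ⟨h1, h2⟩
      · rintro ⟨h1, h2⟩
        exact ⟨Or.inr h1, h2⟩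

/-- layer-cake sum -/
noncomputable def lay {X : Type} (μ : Set X → ℝ) (K : ℕ) (a : X → ℕ) : ℝ :=
  ∑ j ∈ Finset.range K, μ {x | j < a x}

theorem FA.lay_eq {X ι : Type} {μ : Set X → ℝ} (h : FA μ) (τ : X → ι) (s : Finset ι)
    (hs : ∀ x, τ x ∈ s) (K : ℕ) (c : ι → ℕ) (hc : ∀ i ∈ s, c i ≤ K) :
    lay μ K (fun x => c (τ x)) = ∑ i ∈ s, (c i : ℝ) * μ (τ ⁻¹' {i}) := by
  unfold lay
  have : ∀ j, μ {x | j < c (τ x)} = ∑ i ∈ s, if j < c i then μ (τ ⁻¹' {i}) else 0 := by
    intro j
    rw [← h.sum_fib τ (fun i => j < c i) s]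
    congr 1
    ext x
    simp [hs x]
  simp_rw [this]
  rw [Finset.sum_comm]
  refine Finset.sum_congr rfl fun i hi => ?_
  rw [← Finset.sum_filter, Finset.sum_const, nsmul_eq_mul]
  congr 2
  have : (Finset.range K).filter (fun j => j < c i) = Finset.range (c i) := by
    ext j
    have := hc i hi
    simp only [Finset.mem_filter, Finset.mem_range]
    omega
  rw [this, Finset.card_range]

theorem FA.lay_add {X : Type} {μ : Set X → ℝ} (h : FA μ) (K : ℕ) (a b : X → ℕ)
    (hab : ∀ x, a x + b x ≤ K) :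
    lay μ K (fun x => a x + b x) = lay μ K a + lay μ K b := by
  let τ : X → ℕ × ℕ := fun x => (a x, b x)
  let s : Finset (ℕ × ℕ) :=
    (Finset.range (K + 1) ×ˢ Finset.range (K + 1)).filter fun i => i.1 + i.2 ≤ K
  have hs : ∀ x, τ x ∈ s := fun x => by
    have := hab x
    simp only [s, τ, Finset.mem_filter, Finset.mem_product, Finset.mem_range]
    omega
  have hm : ∀ i ∈ s, i.1 + i.2 ≤ K := fun i hi => (Finset.mem_filter.1 hi).2
  have h1 := h.lay_eq τ s hs K (fun i => i.1 + i.2) hm
  have h2 := h.lay_eq τ s hs K (fun i => i.1) fun i hi => by have := hm i hi; omega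
  have h3 := h.lay_eq τ s hs K (fun i => i.2) fun i hi => by have := hm i hi; omega
  simp only [τ] at h1 h2 h3
  rw [h1, h2, h3, ← Finset.sum_add_distrib]
  refine Finset.sum_congr rfl fun i _ => ?_
  push_cast
  ring

theorem FA.lay_le {X : Type} {μ : Set X → ℝ} (h : FA μ) (K L : ℕ) (a : X → ℕ)
    (ha : ∀ x, a x ≤ L) : lay μ K a ≤ L := by
  unfold lay
  calc ∑ j ∈ Finset.range K, μ {x | j < a x}
      ≤ ∑ j ∈ Finset.range K, if j < L then (1 : ℝ) else 0 := by
        refine Finset.sum_le_sum fun j _ => ?_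
        split_ifs with hj
        · exact h.le_one _
        · have : {x | j < a x} = ∅ := by
            ext x
            have := ha x
            simp only [Set.mem_setOf_eq, Set.mem_empty_iff_false, iff_false]
            omega
          rw [this, h.empty]
    _ ≤ L := by
        rw [← Finset.sum_filter, Finset.sum_const, nsmul_eq_mul, mul_one]
        have : ((Finset.range K).filter fun j => j < L) ⊆ Finset.range L := by
          intro j hj
          simpa using (Finset.mem_filter.1 hj).2
        have := Finset.card_le_card this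
        rw [Finset.card_range] at this
        exact_mod_cast this

theorem FA.lay_nn {X : Type} {μ : Set X → ℝ} (h : FA μ) (K : ℕ) (a : X → ℕ) : 0 ≤ lay μ K a :=
  Finset.sum_nonneg fun _ _ => h.nn _

theorem hasMean_ext (G : Type) [Group G] (N : Subgroup G) [N.Normal] (hN : HasMean N)
    (hQ : HasMean (G ⧸ N)) : HasMean G := by
  obtain ⟨α, hα, hαi⟩ := (hasMean_iff _).1 hN
  obtain ⟨β, hβ, hβi⟩ := (hasMean_iff _).1 hQ
  let F : Set G → G → ℝ := fun A g => α {n : N | g * n ∈ A}
  have hF : ∀ A g (n : N), F A (g * n) = F A g := by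
    intro A g n
    have := hαi n {m : N | g * m ∈ A}
    simp only [F]
    rw [← this]
    congr 1
    ext m
    simp [mul_assoc]
  let f : Set G → G ⧸ N → ℝ := fun A q => F A q.out
  have hf : ∀ A (g : G), f A (g : G ⧸ N) = F A g := by
    intro A g
    obtain ⟨n, hn⟩ := QuotientGroup.mk_out_eq_mul N g
    simp only [f]
    rw [hn, hF]
  have f0 : ∀ A q, 0 ≤ f A q := fun A q => hα.nn _
  have f1 : ∀ A q, f A q ≤ 1 := fun A q => hα.le_one _
  have fa : ∀ A B, Disjoint A B → ∀ q, f (A ∪ B) q = f A q + f B q := by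
    intro A B hAB q
    exact hα.add {n : N | q.out * n ∈ A} {n : N | q.out * n ∈ B} (hAB.preimage _)
  let a : ℕ → Set G → G ⧸ N → ℕ := fun k A q => ⌊(k : ℝ) * f A q⌋₊
  have ak : ∀ k A q, a k A q ≤ k := fun k A q => by
    refine Nat.floor_le_of_le ?_
    have := f1 A q
    have hk : (0 : ℝ) ≤ k := Nat.cast_nonneg k
    nlinarith
  refine hasMean_of_approx (atTop : Filter ℕ) (fun k A => lay β (k + 1) (a (k + 1) A) / (k + 1))
    (fun k A => div_nonneg (hβ.lay_nn _ _) (by positivity)) (fun k A => ?_) ?_ ?_ ?_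
  · rw [div_le_one (by positivity)]
    have := hβ.lay_le (k + 1) (k + 1) (a (k + 1) A) (ak _ _)
    exact_mod_cast this
  · refine tendsto_const_nhds.congr fun k => ?_
    have h1 : ∀ q, a (k + 1) Set.univ q = k + 1 := by
      intro q
      have : f Set.univ q = 1 := by simpa [f, F] using hα.univ
      simp only [a, this, mul_one, Nat.floor_natCast]
    have : lay β (k + 1) (a (k + 1) Set.univ) = k + 1 := by
      unfold lay
      rw [Finset.sum_congr rfl (g := fun _ => (1 : ℝ))]
      · simp
      · intro j hj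
        rw [← hβ.univ]
        congr 1
        ext q
        simpa [h1] using hj
    rw [this, div_self (by positivity)]
  · intro A B hAB
    refine squeeze_zero_norm (a := fun k : ℕ => 1 / ((k : ℝ) + 1)) (fun k => ?_)
      tendsto_one_div_add_atTop_nhds_zero_nat
    have hle : ∀ q, a (k + 1) A q + a (k + 1) B q ≤ a (k + 1) (A ∪ B) q := by
      intro q
      simp only [a]
      rw [fa A B hAB, mul_add]
      refine Nat.le_floor ?_
      push_cast
      have h1 := Nat.floor_le (a := ((k : ℝ) + 1) * f A q) (mul_nonneg (by positivity) (f0 A q))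
      have h2 := Nat.floor_le (a := ((k : ℝ) + 1) * f B q) (mul_nonneg (by positivity) (f0 B q))
      linarith
    have hge : ∀ q, a (k + 1) (A ∪ B) q ≤ a (k + 1) A q + a (k + 1) B q + 1 := by
      intro q
      simp only [a]
      rw [fa A B hAB, mul_add]
      refine Nat.le_of_lt_succ ((Nat.floor_lt (add_nonneg (mul_nonneg (by positivity) (f0 A q))
        (mul_nonneg (by positivity) (f0 B q)))).2 ?_)
      push_cast
      have h1 := Nat.lt_floor_add_one (((k : ℝ) + 1) * f A q)
      have h2 := Nat.lt_floor_add_one (((k : ℝ) + 1) * f B q)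
      linarith
    let d : G ⧸ N → ℕ := fun q => a (k + 1) (A ∪ B) q - (a (k + 1) A q + a (k + 1) B q)
    have hd : a (k + 1) (A ∪ B) = fun q => (a (k + 1) A q + a (k + 1) B q) + d q := by
      funext q
      have := hle q
      simp only [d]
      omega
    have h1 := hβ.lay_add (k + 1) (fun q => a (k + 1) A q + a (k + 1) B q) d fun q => by
      have := hle q
      have := ak (k + 1) (A ∪ B) q
      simp only [d]
      omega
    have h2 := hβ.lay_add (k + 1) (a (k + 1) A) (a (k + 1) B) fun q =>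
      (hle q).trans (ak _ _ _)
    rw [← hd, h2] at h1
    have h3 := hβ.lay_le (k + 1) 1 d fun q => by
      have := hge q
      simp only [d]
      omega
    have h4 := hβ.lay_nn (k + 1) d
    rw [h1, ← sub_div, ← sub_div, Real.norm_eq_abs, abs_div, abs_of_pos (a := (k : ℝ) + 1)
      (by positivity)]
    refine div_le_div_of_nonneg_right ?_ (by positivity)
    rw [abs_le]
    push_cast at h3
    constructor <;> linarith
  · intro g A
    refine tendsto_const_nhds.congr fun k => ?_
    have : lay β (k + 1) (a (k + 1) ((fun x : G => g * x) ⁻¹' A)) = lay β (k + 1) (a (k + 1) A) := by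
      unfold lay
      refine Finset.sum_congr rfl fun j _ => ?_
      rw [← hβi (g : G ⧸ N) {q | j < a (k + 1) A q}]
      congr 1
      ext q
      obtain ⟨x, rfl⟩ := QuotientGroup.mk_surjective q
      simp only [Set.mem_setOf_eq, Set.mem_preimage, a, ← QuotientGroup.mk_mul, hf]
      have : F ((fun x : G => g * x) ⁻¹' A) x = F A (g * x) := by
        simp [F, mul_assoc]
      rw [this]
    rw [this, sub_self]

theorem hasMean_sub (G H : Type) [Group G] [Group H] (f : G →* H) (hf : Injective f)
    (hH : HasMean H) : HasMean G := by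
  obtain ⟨μ, hμ, hi⟩ := (hasMean_iff _).1 hH
  let r : Setoid H := QuotientGroup.rightRel f.range
  let t : H → H := fun x => (Quotient.mk r x).out
  have ht : ∀ x, ∃ g, f g = x * (t x)⁻¹ := by
    intro x
    have : r (t x) x := Quotient.mk_out (s := r) x
    exact QuotientGroup.rightRel_apply.1 this
  choose ρ hρ using ht
  have hρe : ∀ g x, ρ (f g * x) = g * ρ x := by
    intro g x
    have h1 : t (f g * x) = t x := by
      simp only [t]
      congr 1
      refine Quotient.sound (QuotientGroup.rightRel_apply.2 ⟨g⁻¹, by simp⟩)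
    apply hf
    rw [hρ, map_mul, hρ, h1, mul_assoc]
  refine (hasMean_iff _).2 ⟨_, hμ.comap ρ, fun g A => ?_⟩
  rw [← hi (f g) (ρ ⁻¹' A)]
  congr 1
  ext x
  simp [hρe]

theorem hasMean_quot (G H : Type) [Group G] [Group H] (f : G →* H) (hf : Surjective f)
    (hG : HasMean G) : HasMean H := by
  obtain ⟨μ, hμ, hi⟩ := (hasMean_iff _).1 hG
  refine (hasMean_iff _).2 ⟨_, hμ.comap f, fun h A => ?_⟩
  obtain ⟨g, rfl⟩ := hf h
  rw [← hi g (f ⁻¹' A)]
  congr 1
  ext x
  simp

theorem hasMean_fin (G : Type) [Group G] (hG : Finite G) : HasMean G := by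
  have hpos : (0 : ℝ) < Nat.card G := by exact_mod_cast Nat.card_pos
  refine ⟨fun A => A.ncard / Nat.card G, fun A => by positivity, ?_, fun A B hAB => ?_,
    fun g A => ?_⟩
  · simp only [Set.ncard_univ]
    exact div_self hpos.ne'
  · simp only
    rw [Set.ncard_union_eq hAB]
    push_cast
    ring
  · simp only
    congr 2
    exact Set.ncard_preimage_of_injective_subset_range (mul_right_injective g)
      (by rw [(mul_left_surjective g).range_eq]; exact Set.subset_univ _)

theorem hasMean_union (G : Type) [Group G] (S : Set (Subgroup G)) (hd : DirectedOn (· ≤ ·) S)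
    (hc : ∀ g : G, ∃ K ∈ S, g ∈ K) (hS : ∀ K ∈ S, HasMean K) : HasMean G := by
  have hne : Nonempty S := by
    obtain ⟨K, hK, _⟩ := hc 1
    exact ⟨⟨K, hK⟩⟩
  haveI : IsDirectedOrder S := hd.isDirectedOrder
  have := fun K : S => (hasMean_iff _).1 (hS K K.2)
  choose μ hμ hi using this
  refine hasMean_of_approx (atTop : Filter S) (fun K A => μ K (Subtype.val ⁻¹' A))
    (fun K A => (hμ K).nn _) (fun K A => (hμ K).le_one _) ?_ ?_ ?_
  · refine tendsto_const_nhds.congr fun K => ?_
    exact ((hμ K).comap Subtype.val).univ.symm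
  · intro A B hAB
    refine tendsto_const_nhds.congr fun K => ?_
    have := ((hμ K).comap Subtype.val).add A B hAB
    linarith
  · intro g A
    obtain ⟨K, hK, hg⟩ := hc g
    refine tendsto_const_nhds.congr' ?_
    filter_upwards [eventually_ge_atTop (⟨K, hK⟩ : S)] with L hL
    have hgL : g ∈ (L : Subgroup G) := hL hg
    have := hi L ⟨g, hgL⟩ (Subtype.val ⁻¹' A)
    rw [← this]
    exact (sub_self _).symm

theorem cls_mean : Cls HasMean where
  fin := hasMean_fin
  sub := hasMean_sub
  quot := hasMean_quot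
  ext := hasMean_ext
  union := hasMean_union

end Pool.Agent.Lib.MP_1d2f05_al
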