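import Pool.Agent.Lib.MP_1d2f05_al.FG
import Pool.Agent.Lib.MP_1d2f05_al.Cls

set_option autoImplicit false

namespace Pool.Agent.Lib.MP_1d2f05_al

open Function Equiv Set

variable {X : Type} {S : Set X → (X → X) → Prop} {E E' D O : Set X} {f g h : X → X}
  {A : (G : Type) → [Group G] → Prop}

def Inv (S : Set X → (X → X) → Prop) (O : Set X) : Prop :=
  ∀ E f, S E f → ∀ x ∈ E, (x ∈ O ↔ f x ∈ O)

def Opn (S : Set X → (X → X) → Prop) (O : Set X) : Prop :=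
  ∀ x ∈ O, ∃ D, S D id ∧ x ∈ D ∧ D ⊆ O

def SO (S : Set X → (X → X) → Prop) (O : Set X) (E : Set X) (f : X → X) : Prop := S E f ∧ E ⊆ O

def SY (S : Set X → (X → X) → Prop) (O : Set X) (E : Set X) (f : X → X) : Prop :=
  ∃ E0 f0, S E0 f0 ∧ E = E0 \ O ∧ EqOn f f0 E

theorem sys_SO (hS : Sys S) (hO : Inv S O) : Sys (SO S O) where
  inj h := hS.inj h.1
  congr h e := ⟨hS.congr h.1 e, h.2⟩
  dom h := ⟨hS.dom h.1, h.2⟩
  inv {E f} h := by
    obtain ⟨g, h1, h2⟩ := hS.inv h.1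
    refine ⟨g, ⟨h1, ?_⟩, h2⟩
    rintro _ ⟨x, hx, rfl⟩
    exact (hO E f h.1 x hx).1 (h.2 hx)
  comp h1 h2 := ⟨hS.comp h1.1 h2.1, fun _ hx => h1.2 hx.1⟩
  diff h1 h2 := ⟨hS.diff h1.1 h2.1, fun _ hx => h1.2 hx.1⟩
  union h1 h2 := ⟨hS.union h1.1 h2.1, union_subset h1.2 h2.2⟩
  empty := ⟨hS.empty, empty_subset _⟩
  cpt F h1 h2 h3 := hS.cpt F h1.1 (fun D hD => (h2 D hD).1) h3

theorem SY.of (h : S E f) : SY S O (E \ O) f := ⟨E, f, h, rfl, fun _ _ => rfl⟩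

theorem SY.id (hS : Sys S) (h : SY S O E f) : ∃ E0, S E0 id ∧ E = E0 \ O := by
  obtain ⟨E0, f0, h1, h2, _⟩ := h
  exact ⟨E0, hS.dom h1, h2⟩

theorem sys_SY (hS : Sys S) (hO : Inv S O) (hP : Opn S O) : Sys (SY S O) where
  inj := by
    rintro E f ⟨E0, f0, h1, rfl, h3⟩
    exact ((hS.inj h1).mono sdiff_subset).congr h3.symm
  congr := by
    rintro E f g ⟨E0, f0, h1, rfl, h3⟩ e
    exact ⟨E0, f0, h1, rfl, e.symm.trans h3⟩
  dom h := by
    obtain ⟨E0, h1, rfl⟩ := h.id hS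
    exact SY.of h1
  inv := by
    rintro E f ⟨E0, f0, h1, rfl, h3⟩
    obtain ⟨g, h4, h5⟩ := hS.inv h1
    refine ⟨g, ⟨_, g, h4, ?_, fun _ _ => rfl⟩, fun x hx => by rw [h3 hx, h5 x hx.1]⟩
    ext y
    constructor
    · rintro ⟨x, hx, rfl⟩
      rw [h3 hx]
      exact ⟨⟨x, hx.1, rfl⟩, fun h => hx.2 ((hO _ _ h1 x hx.1).2 h)⟩
    · rintro ⟨⟨x, hx, rfl⟩, h6⟩
      have : x ∈ E0 \ O := ⟨hx, fun h => h6 ((hO _ _ h1 x hx).1 h)⟩
      exact ⟨x, this, h3 this⟩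
  comp := by
    rintro E f E' g ⟨E0, f0, h1, rfl, h3⟩ ⟨E1, g0, h4, rfl, h6⟩
    refine ⟨_, _, hS.comp h1 h4, ?_, fun x hx => ?_⟩
    · ext x
      constructor
      · rintro ⟨h7, h8⟩
        have h9 : f x ∈ E1 \ O := h8
        rw [h3 h7] at h9
        exact ⟨⟨h7.1, h9.1⟩, h7.2⟩
      · rintro ⟨⟨h7, h8⟩, h9⟩
        refine ⟨⟨h7, h9⟩, ?_⟩
        show f x ∈ E1 \ O
        rw [h3 ⟨h7, h9⟩]
        exact ⟨h8, fun h => h9 ((hO _ _ h1 x h7).2 h)⟩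
    · simp only [comp_apply]
      rw [h6 hx.2, h3 hx.1]
  diff := by
    rintro E f E' ⟨E0, f0, h1, rfl, h3⟩ h4
    obtain ⟨E1, h5, rfl⟩ := h4.id hS
    refine ⟨_, f0, hS.diff h1 h5, ?_, fun x hx => h3 hx.1⟩
    ext x
    simp only [mem_sdiff]
    tauto
  union h1 h2 := by
    obtain ⟨E0, h3, rfl⟩ := h1.id hS
    obtain ⟨E1, h4, rfl⟩ := h2.id hS
    rw [← union_sdiff_distrib]
    exact SY.of (hS.union h3 h4)
  empty := ⟨∅, id, hS.empty, by simp, fun _ _ => rfl⟩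
  cpt {E} F h1 h2 h3 := by
    obtain ⟨E0, h4, rfl⟩ := h1.id hS
    refine hS.ind h4 (fun D => ∃ t ⊆ F, t.Finite ∧ D \ O ⊆ ⋃₀ t) ⟨∅, by simp⟩ ?_ ?_
    · rintro D D' _ _ _ _ _ ⟨t, a1, a2, a3⟩ ⟨t', b1, b2, b3⟩
      refine ⟨t ∪ t', union_subset a1 b1, a2.union b2, ?_⟩
      rw [union_sdiff_distrib, sUnion_union]
      exact union_subset_union a3 b3
    · intro x hx
      by_cases hxO : x ∈ O
      · obtain ⟨D, a1, a2, a3⟩ := hP x hxO
        exact ⟨D, a2, a1, fun D' hD' _ _ => ⟨∅, by simp, by simp, fun y hy =>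
          (hy.2 (a3 (hD' hy.1))).elim⟩⟩
      · obtain ⟨C, hC, hxC⟩ := h3 ⟨hx, hxO⟩
        obtain ⟨D, a1, rfl⟩ := (h2 C hC).id hS
        exact ⟨D, hxC.1, a1, fun D' hD' _ _ => ⟨{D \ O}, by simpa using hC, by simp,
          fun y hy => by simpa using ⟨hD' hy.1, hy.2⟩⟩⟩

theorem full_pres (hS : Sys S) (hO : Inv S O) {ι : Type} {π : Perm (X × ι)} (hπ : π ∈ Full hS ι)
    (p : X × ι) : (π p).1 ∈ O ↔ p.1 ∈ O := by
  obtain ⟨E, h1, h2, h3⟩ := hπ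
  by_cases hp : p.1 ∈ E
  · obtain ⟨D, f, j, a1, a2, a3⟩ := h3 p ⟨E, h1, hp⟩
    rw [show π p = (f p.1, j) from a3 _ a1]
    exact (hO D f a2 _ a1).symm
  · rw [h2 p hp]

theorem full_SY_fix (hS : Sys S) (hO : Inv S O) (hP : Opn S O) {ι : Type} {π : Perm (X × ι)}
    (hπ : π ∈ Full (sys_SY hS hO hP) ι) (p : X × ι) (hp : p.1 ∈ O) : π p = p := by
  obtain ⟨E, h1, h2, _⟩ := hπ
  obtain ⟨E0, _, rfl⟩ := h1.id hS
  exact h2 p fun h => h.2 hp

theorem full_SY_pres (hS : Sys S) (hO : Inv S O) (hP : Opn S O) {ι : Type} {π : Perm (X × ι)}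
    (hπ : π ∈ Full (sys_SY hS hO hP) ι) (p : X × ι) (hp : p.1 ∉ O) : (π p).1 ∉ O := by
  intro h
  have := π.injective (full_SY_fix hS hO hP hπ _ h)
  rw [this] at h
  exact hp h

/-- agreement outside `O` -/
def Agr {ι : Type} (O : Set X) (π b : Perm (X × ι)) : Prop := ∀ p : X × ι, p.1 ∉ O → π p = b p

theorem Agr.mul {ι : Type} {π π' b b' : Perm (X × ι)} (h : Agr O π b) (h' : Agr O π' b')
    (hb : ∀ p : X × ι, p.1 ∉ O → (b' p).1 ∉ O) : Agr O (π * π') (b * b') := fun p hp => by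
  rw [Perm.mul_apply, Perm.mul_apply, h' p hp, h _ (hb p hp)]

theorem Agr.inv {ι : Type} {π b : Perm (X × ι)} (h : Agr O π b)
    (hb : ∀ p : X × ι, p.1 ∉ O → (b⁻¹ p).1 ∉ O) : Agr O π⁻¹ b⁻¹ := fun p hp => by
  rw [Perm.inv_eq_iff_eq, h _ (hb p hp)]
  simp

theorem exists_res (hS : Sys S) (hO : Inv S O) (hP : Opn S O) {ι : Type} {π : Perm (X × ι)}
    (hπ : π ∈ Full hS ι) : ∃ b ∈ Full (sys_SY hS hO hP) ι, Agr O π b := by
  classical
  have h1 := full_pres hS hO hπ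
  have h2 := full_pres hS hO ((Full hS ι).inv_mem hπ)
  let b : Perm (X × ι) :=
    { toFun := fun p => if p.1 ∈ O then p else π p
      invFun := fun p => if p.1 ∈ O then p else π⁻¹ p
      left_inv := fun p => by
        by_cases hp : p.1 ∈ O
        · simp [hp]
        · simp [hp, h1]
      right_inv := fun p => by
        by_cases hp : p.1 ∈ O
        · simp [hp]
        · have := (h2 p).not.2 hp
          simp only [hp, if_false, this]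
          simp }
  have hb : ∀ p : X × ι, p.1 ∉ O → b p = π p := fun p hp => if_neg hp
  obtain ⟨E, a1, a2, a3⟩ := hπ
  refine ⟨b, mem_full _ (SY.of a1) (fun p hp => ?_) fun p hp => ?_, fun p hp => (hb p hp).symm⟩
  · by_cases hpO : p.1 ∈ O
    · exact if_pos hpO
    · rw [hb p hpO, a2 p fun h => hp ⟨h, hpO⟩]
  · obtain ⟨D, f, j, c1, c2, c3⟩ := a3 p ⟨E, a1, hp.1⟩
    exact ⟨D \ O, f, j, ⟨c1, hp.2⟩, SY.of c2, fun y hy => by rw [hb _ hy.2, c3 y hy.1]⟩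

theorem gam_lift (hS : Sys S) (hO : Inv S O) (hP : Opn S O) {b : Perm (X × T8)}
    (hb : b ∈ Gam (SY S O)) : ∃ γ ∈ Gam S, Agr O γ b := by
  have hle := gam_le_full (sys_SY hS hO hP)
  induction hb using Subgroup.closure_induction with
  | mem b hb =>
    obtain ⟨E, f, i, j, l, ⟨E0, f0, h1, rfl, h3⟩, a1, a2, a3, hc⟩ := hb
    obtain ⟨γ, hγ⟩ := (tr_tri (injOn_id E0) (injOn_id E0) (hS.inj h1) a1 a2 a3).ex
    refine ⟨γ, Subgroup.subset_closure ⟨E0, f0, i, j, l, h1, a1, a2, a3, hγ⟩, fun p hp => ?_⟩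
    have hc' : Cyc b (E0 \ O) (tr id i) (tr id j) (tr f0 l) :=
      hc.congr (fun _ _ => rfl) (fun _ _ => rfl) fun x hx => by simp [h3 hx]
    rcases cyc_cases E0 (tr id i) (tr id j) (tr f0 l) p with
      ⟨x, hx, rfl⟩ | ⟨x, hx, rfl⟩ | ⟨x, hx, rfl⟩ | ⟨h4, h5, h6⟩
    · rw [hγ.ab x hx, hc'.ab x ⟨hx, hp⟩]
    · rw [hγ.bc x hx, hc'.bc x ⟨hx, hp⟩]
    · rw [hγ.ca x hx, hc'.ca x ⟨hx, fun h => hp ((hO _ _ h1 x hx).1 h)⟩]
    · rw [hγ.fix p h4 h5 h6, hc'.fix p (fun x hx => h4 x hx.1) (fun x hx => h5 x hx.1)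
        fun x hx => h6 x hx.1]
  | one => exact ⟨1, Subgroup.one_mem _, fun _ _ => rfl⟩
  | mul b b' _ hb' ih ih' =>
    obtain ⟨γ, h1, h2⟩ := ih
    obtain ⟨γ', h1', h2'⟩ := ih'
    exact ⟨γ * γ', Subgroup.mul_mem _ h1 h1', h2.mul h2' (full_SY_pres hS hO hP (hle hb'))⟩
  | inv b hb ih =>
    obtain ⟨γ, h1, h2⟩ := ih
    exact ⟨γ⁻¹, Subgroup.inv_mem _ h1,
      h2.inv (full_SY_pres hS hO hP (Subgroup.inv_mem _ (hle hb)))⟩

theorem a_gam_SY (hA : Cls A) (hS : Sys S) (hO : Inv S O) (hP : Opn S O) (h : A (Gam S)) :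
    A (Gam (SY S O)) := by
  have hle := gam_le_full (sys_SY hS hO hP)
  let R : Subgroup (Gam S × Perm (X × T8)) :=
    { carrier := {q | q.2 ∈ Gam (SY S O) ∧ Agr O q.1.1 q.2}
      one_mem' := ⟨Subgroup.one_mem _, fun _ _ => rfl⟩
      mul_mem' := fun h1 h2 => ⟨Subgroup.mul_mem _ h1.1 h2.1,
        h1.2.mul h2.2 (full_SY_pres hS hO hP (hle h2.1))⟩
      inv_mem' := fun h1 => ⟨Subgroup.inv_mem _ h1.1,
        h1.2.inv (full_SY_pres hS hO hP (Subgroup.inv_mem _ (hle h1.1)))⟩ }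
  refine hA.corr _ ⊥ R h hA.bot (fun b hb => ?_) fun b hb => ?_
  · obtain ⟨γ, h1, h2⟩ := gam_lift hS hO hP hb
    exact ⟨⟨γ, h1⟩, hb, h2⟩
  · rw [Subgroup.mem_bot]
    ext1 p
    by_cases hp : p.1 ∈ O
    · exact full_SY_fix hS hO hP (hle hb.1) p hp
    · exact (hb.2 p hp).symm

theorem Sys.iUnion (hS : Sys S) {ι : Type} [Finite ι] (W : ι → Set X) (h : ∀ i, S (W i) id) :
    S (⋃ i, W i) id := by
  have : ∀ t : Set ι, t.Finite → S (⋃ i ∈ t, W i) id := by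
    intro t ht
    induction t, ht using Set.Finite.induction_on with
    | empty => simpa using hS.empty
    | @insert a t _ _ ih =>
      rw [biUnion_insert]
      exact hS.union (h a) ih
  simpa using this univ finite_univ

theorem Sys.iInter (hS : Sys S) {ι : Type} [Finite ι] (W : ι → Set X) (h : ∀ i, S (W i) id)
    (hE : S E id) : S (E ∩ ⋂ i, W i) id := by
  have : ∀ t : Set ι, t.Finite → S (E ∩ ⋂ i ∈ t, W i) id := by
    intro t ht
    induction t, ht using Set.Finite.induction_on with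
    | empty => simpa using hE
    | @insert a t _ _ ih =>
      rw [biInter_insert, inter_comm (W a), ← inter_assoc]
      exact hS.restr ih (h a)
  simpa using this univ finite_univ

theorem full_pull (hS : Sys S) (hO : Inv S O) {ι : Type} [Finite ι] {π : Perm (X × ι)}
    (hπ : π ∈ Full hS ι) {W : Set X} (hW : S W id) (hWO : W ⊆ O) :
    ∃ W', S W' id ∧ W' ⊆ O ∧ ∀ p : X × ι, (π p).1 ∈ W → p.1 ∈ W' := by
  obtain ⟨E, _, _, h3⟩ := (Full hS ι).inv_mem hπ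
  have key : ∀ i : ι, ∃ W', S W' id ∧ W' ⊆ O ∧ ∀ y ∈ W, (π⁻¹ (y, i)).1 ∈ W' := by
    intro i
    refine hS.ind hW (fun D => ∃ W', S W' id ∧ W' ⊆ O ∧ ∀ y ∈ D, (π⁻¹ (y, i)).1 ∈ W')
      ⟨∅, hS.empty, by simp⟩ ?_ ?_
    · rintro D D' _ _ _ _ _ ⟨t, a1, a2, a3⟩ ⟨t', b1, b2, b3⟩
      exact ⟨t ∪ t', hS.union a1 b1, union_subset a2 b2,
        fun y hy => hy.elim (fun h => Or.inl (a3 y h)) fun h => Or.inr (b3 y h)⟩
    · intro x hx
      obtain ⟨D, f, j, a1, a2, a3⟩ := h3 (x, i) ⟨W, hW, hx⟩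
      refine ⟨D, a1, hS.dom a2, fun D' b1 b2 b3 => ⟨f '' D', hS.ran (hS.sub a2 b3 b1), ?_, ?_⟩⟩
      · rintro _ ⟨y, hy, rfl⟩
        exact (hO D f a2 y (b1 hy)).1 (hWO (b2 hy))
      · intro y hy
        rw [show π⁻¹ (y, i) = (f y, j) from a3 y (b1 hy)]
        exact ⟨y, hy, rfl⟩
  choose W' h4 h5 h6 using key
  refine ⟨⋃ i, W' i, hS.iUnion W' h4, iUnion_subset h5, fun p hp => mem_iUnion.2 ⟨(π p).2, ?_⟩⟩
  have := h6 (π p).2 _ hp
  simpa using this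

theorem tr_lemma (hA : Cls A) (hS : Sys S) (hO : Inv S O) (n : ℕ) (hG : A (Gam S))
    (hF : A (Full (sys_SO hS hO) (Fin n))) (L : Subgroup (Perm (X × Fin n)))
    (hL : ∀ π ∈ L, π ∈ Full hS (Fin n) ∧
      ∃ W, S W id ∧ W ⊆ O ∧ ∀ p : X × Fin n, p.1 ∉ W → (π p).2 = p.2) : A L := by
  let R : Subgroup ((Fin n → Gam S) × Perm (X × Fin n)) :=
    { carrier := {q | q.2 ∈ Full hS (Fin n) ∧ ∃ W, S W id ∧ W ⊆ O ∧ ∀ p : X × Fin n, p.1 ∉ W →
        (q.2 p).2 = p.2 ∧ (q.1 p.2).1 (p.1, 0) = ((q.2 p).1, 0)}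
      one_mem' := ⟨Subgroup.one_mem _, ∅, hS.empty, empty_subset _, fun _ _ => ⟨rfl, rfl⟩⟩
      mul_mem' := by
        rintro ⟨γ, π⟩ ⟨γ', π'⟩ ⟨h1, W, h2, h3, h4⟩ ⟨h1', W', h2', h3', h4'⟩
        obtain ⟨W2, a1, a2, a3⟩ := full_pull hS hO h1' h2 h3
        refine ⟨Subgroup.mul_mem _ h1 h1', W' ∪ W2, hS.union h2' a1, union_subset h3' a2,
          fun p hp => ?_⟩
        obtain ⟨b1, b2⟩ := h4' p fun h => hp (Or.inl h)
        obtain ⟨c1, c2⟩ := h4 (π' p) fun h => hp (Or.inr (a3 p h))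
        simp only at b1 b2 c1 c2
        refine ⟨c1.trans b1, ?_⟩
        show (γ p.2).1 ((γ' p.2).1 (p.1, 0)) = ((π (π' p)).1, 0)
        rw [b2, ← c2, b1]
      inv_mem' := by
        rintro ⟨γ, π⟩ ⟨h1, W, h2, h3, h4⟩
        obtain ⟨W2, a1, a2, a3⟩ := full_pull hS hO (Subgroup.inv_mem _ h1) h2 h3
        refine ⟨Subgroup.inv_mem _ h1, W2, a1, a2, fun p hp => ?_⟩
        obtain ⟨c1, c2⟩ := h4 (π⁻¹ p) fun h => hp (a3 p h)
        have e : π (π⁻¹ p) = p := by simp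
        simp only [e] at c1 c2
        refine ⟨c1.symm, ?_⟩
        show (γ p.2).1⁻¹ (p.1, 0) = ((π⁻¹ p).1, 0)
        rw [Perm.inv_eq_iff_eq, c1, c2] }
  refine hA.corr L _ R (hA.pi hG n) hF (fun π hπ => ?_) fun π hπ => ?_
  · obtain ⟨hπF, W, h2, h3, h4⟩ := hL π hπ
    obtain ⟨E, a1, a2, a3⟩ := id hπF
    have key : ∀ i : Fin n, ∃ γ ∈ Gam S, ∀ y ∉ W, γ (y, 0) = ((π (y, i)).1, 0) := by
      intro i
      let f : X → X := fun y => (π (y, i)).1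
      have hf : InjOn f (E \ W) := by
        intro x hx y hy e
        have : π (x, i) = π (y, i) := Prod.ext e ((h4 (x, i) hx.2).trans (h4 (y, i) hy.2).symm)
        exact congrArg Prod.fst (π.injective this)
      have t := tr_tri (injOn_id _) hf hf (i := (0 : T8)) (j := 1) (l := 2) (by decide)
        (by decide) (by decide)
      have hM : M (Gam S) (E \ W) id 0 f 1 f 2 := by
        refine hS.ind (hS.diff a1 h2) (fun D => M (Gam S) D id 0 f 1 f 2) M.empty ?_ ?_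
        · intro D D' _ _ b1 b2 b3 b4 b5
          exact b4.union b5 b3 (t.mono (union_subset b1 b2))
        · intro x hx
          obtain ⟨D, g, j, b1, b2, b3⟩ := a3 (x, i) ⟨E, a1, hx.1⟩
          refine ⟨D, b1, hS.dom b2, fun D' c1 _ c3 => ?_⟩
          have : S D' f := hS.congr (hS.sub b2 c3 c1) fun y hy =>
            (congrArg Prod.fst (b3 y (c1 hy))).symm
          exact m_gam hS c3 this this (by decide) (by decide) (by decide)
      obtain ⟨c1, hc1⟩ := t.ex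
      obtain ⟨c2, hc2⟩ := (tr_tri (injOn_id (f '' (E \ W) ∪ E)) (injOn_id _) (injOn_id _)
        (i := (0 : T8)) (j := 1) (l := 2) (by decide) (by decide) (by decide)).ex
      have hsub : f '' (E \ W) ⊆ E := by
        rintro _ ⟨x, hx, rfl⟩
        by_contra hn
        have := π.injective (a2 (π (x, i)) hn)
        exact hn (by simp only [f]; rw [this]; exact hx.1)
      rw [union_eq_right.2 hsub] at hc2
      obtain ⟨c3, hc3⟩ := (tr_tri (injOn_id (E ∩ W)) (injOn_id _) (injOn_id _)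
        (i := (0 : T8)) (j := 1) (l := 2) (by decide) (by decide) (by decide)).ex
      refine ⟨c2⁻¹ * c1, Subgroup.mul_mem _ (Subgroup.inv_mem _
        (m_gam hS a1 a1 a1 (by decide) (by decide) (by decide) c2 hc2)) (hM c1 hc1), fun y hy => ?_⟩
      by_cases hyE : y ∈ E
      · rw [Perm.mul_apply, show c1 (y, 0) = (f y, 1) from hc1.ab y ⟨hyE, hy⟩]
        exact hc2.inv.ca _ (hsub ⟨y, ⟨hyE, hy⟩, rfl⟩)
      · rw [a2 (y, i) hyE, Perm.mul_apply, hc1.fix, hc2.inv.fix]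
        · exact fun x hx e => hyE ((show x = y from congrArg Prod.fst e) ▸ hx)
        · exact fun x _ e => absurd (congrArg Prod.snd e) (by simp)
        · exact fun x _ e => absurd (congrArg Prod.snd e) (by simp)
        · exact fun x hx e => hyE ((show x = y from congrArg Prod.fst e) ▸ hx.1)
        · exact fun x _ e => absurd (congrArg Prod.snd e) (by simp)
        · exact fun x _ e => absurd (congrArg Prod.snd e) (by simp)
    choose γ hγ1 hγ2 using key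
    exact ⟨fun i => ⟨γ i, hγ1 i⟩, hπF, W, h2, h3, fun p hp => ⟨h4 p hp, hγ2 p.2 p.1 hp⟩⟩
  · obtain ⟨⟨E, a1, a2, a3⟩, W, h2, h3, h4⟩ := hπ
    refine mem_full _ (E := W) ⟨h2, h3⟩ (fun p hp => ?_) fun p hp => ?_
    · obtain ⟨b1, b2⟩ := h4 p hp
      exact Prod.ext (congrArg Prod.fst b2).symm b1
    · obtain ⟨D, f, j, b1, b2, b3⟩ := a3 p ⟨W, h2, hp⟩
      exact ⟨D ∩ W, f, j, ⟨b1, hp⟩, ⟨hS.restr b2 h2, fun _ hx => h3 hx.2⟩, fun y hy => b3 y hy.1⟩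

end Pool.Agent.Lib.MP_1d2f05_al
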