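import Pool.Agent.Lib.MP_1d2f05_al.Cyc

set_option autoImplicit false

namespace Pool.Agent.Lib.MP_1d2f05_al

open Function Equiv Set

structure Sys {X : Type} (S : Set X → (X → X) → Prop) : Prop where
  inj : ∀ {E f}, S E f → InjOn f E
  congr : ∀ {E f g}, S E f → EqOn f g E → S E g
  dom : ∀ {E f}, S E f → S E id
  inv : ∀ {E f}, S E f → ∃ g, S (f '' E) g ∧ ∀ x ∈ E, g (f x) = x
  comp : ∀ {E f E' g}, S E f → S E' g → S (E ∩ f ⁻¹' E') (g ∘ f)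
  diff : ∀ {E f E'}, S E f → S E' id → S (E \ E') f
  union : ∀ {E E'}, S E id → S E' id → S (E ∪ E') id
  empty : S ∅ id
  cpt : ∀ {E} (F : Set (Set X)), S E id → (∀ D ∈ F, S D id) → E ⊆ ⋃₀ F →
    ∃ t ⊆ F, t.Finite ∧ E ⊆ ⋃₀ t

variable {X : Type} {S : Set X → (X → X) → Prop} {E E' D : Set X} {f g h : X → X}

theorem Sys.restr (hS : Sys S) (h1 : S E f) (h2 : S D id) : S (E ∩ D) f := by
  have := hS.comp h2 h1
  rw [preimage_id, inter_comm] at this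
  exact this

theorem Sys.sub (hS : Sys S) (h1 : S E f) (h2 : S D id) (hD : D ⊆ E) : S D f := by
  have := hS.restr h1 h2
  rwa [inter_eq_right.2 hD] at this

theorem Sys.ran (hS : Sys S) (h1 : S E f) : S (f '' E) id := by
  obtain ⟨g, hg, _⟩ := hS.inv h1
  exact hS.dom hg

theorem Sys.pre (hS : Sys S) (h1 : S E f) (h2 : S D id) : S (E ∩ f ⁻¹' D) f :=
  hS.comp h1 h2

theorem Sys.ind (hS : Sys S) (hE : S E id) (P : Set X → Prop) (h0 : P ∅)
    (hU : ∀ D D', S D id → S D' id → D ⊆ E → D' ⊆ E → Disjoint D D' → P D → P D' → P (D ∪ D'))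
    (hl : ∀ x ∈ E, ∃ D, x ∈ D ∧ S D id ∧ ∀ D' ⊆ D, D' ⊆ E → S D' id → P D') : P E := by
  obtain ⟨t, ht, hf, hc⟩ := hS.cpt {D | S D id ∧ ∀ D' ⊆ D, D' ⊆ E → S D' id → P D'} hE
    (fun D hD => hD.1) (fun x hx => by
      obtain ⟨D, h1, h2, h3⟩ := hl x hx
      exact ⟨D, ⟨h2, h3⟩, h1⟩)
  have : S (⋃₀ t) id ∧ P (E ∩ ⋃₀ t) := by
    clear hc
    induction t, hf using Set.Finite.induction_on with
    | empty => simpa using ⟨hS.empty, h0⟩
    | @insert D t _ _ ih =>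
      obtain ⟨h1, h2⟩ := ih (fun x hx => ht (mem_insert_of_mem _ hx))
      obtain ⟨h3, h4⟩ := ht (mem_insert D t)
      rw [sUnion_insert]
      refine ⟨hS.union h3 h1, ?_⟩
      have e : E ∩ (D ∪ ⋃₀ t) = (E ∩ ⋃₀ t) ∪ ((E ∩ D) \ ⋃₀ t) := by
        ext x
        simp only [mem_inter_iff, mem_union, mem_sdiff]
        tauto
      rw [e]
      have h5 := hS.diff (hS.restr hE h3) h1
      refine hU _ _ (hS.restr hE h1) h5 inter_subset_left (fun x hx => hx.1.1) ?_ h2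
        (h4 _ (fun x hx => hx.1.2) (fun x hx => hx.1.1) h5)
      rw [Set.disjoint_left]
      exact fun x hx hx' => hx'.2 hx.2
  have h2 := this.2
  rwa [inter_eq_left.2 hc] at h2

/-- the support of a system -/
def sp (S : Set X → (X → X) → Prop) (x : X) : Prop := ∃ D, S D id ∧ x ∈ D

def Loc {ι : Type} (S : Set X → (X → X) → Prop) (π : Perm (X × ι)) (p : X × ι) : Prop :=
  ∃ D f j, p.1 ∈ D ∧ S D f ∧ ∀ y ∈ D, π (y, p.2) = (f y, j)

/-- the full group on `ι` tracks -/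
def Full (hS : Sys S) (ι : Type) : Subgroup (Perm (X × ι)) where
  carrier := {π | ∃ E, S E id ∧ (∀ p : X × ι, p.1 ∉ E → π p = p) ∧ ∀ p, sp S p.1 → Loc S π p}
  one_mem' := ⟨∅, hS.empty, fun _ _ => rfl, fun p ⟨D, h1, h2⟩ => ⟨D, id, p.2, h2, h1, fun _ _ => rfl⟩⟩
  mul_mem' := by
    rintro π π' ⟨E, h1, h2, h3⟩ ⟨E', h1', h2', h3'⟩
    refine ⟨E ∪ E', hS.union h1 h1', fun p hp => ?_, fun p hp => ?_⟩
    · rw [Perm.mul_apply, h2' p (fun h => hp (Or.inr h)), h2 p (fun h => hp (Or.inl h))]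
    · obtain ⟨D, f, j, hp, hD, hf⟩ := h3' p hp
      obtain ⟨D', g, l, hp', hD', hg⟩ := h3 (f p.1, j) ⟨_, hS.ran hD, mem_image_of_mem f hp⟩
      refine ⟨D ∩ f ⁻¹' D', g ∘ f, l, ⟨hp, hp'⟩, hS.comp hD hD', fun y hy => ?_⟩
      rw [Perm.mul_apply, hf y hy.1]
      exact hg _ hy.2
  inv_mem' := by
    rintro π ⟨E, h1, h2, h3⟩
    refine ⟨E, h1, fun p hp => by rw [Perm.inv_eq_iff_eq, h2 p hp], fun p hp => ?_⟩
    have hq : sp S (π⁻¹ p).1 := by
      by_contra hq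
      have := h2 (π⁻¹ p) fun h => hq ⟨E, h1, h⟩
      have e : π⁻¹ p = p := by rw [← this]; simp
      rw [e] at hq
      exact hq hp
    obtain ⟨D, f, j, hqD, hD, hf⟩ := h3 _ hq
    have e : p = (f (π⁻¹ p).1, j) := by rw [← hf _ hqD]; simp
    obtain ⟨g, hg, hgf⟩ := hS.inv hD
    refine ⟨f '' D, g, (π⁻¹ p).2, ⟨_, hqD, (congrArg Prod.fst e).symm⟩, hg, ?_⟩
    rintro _ ⟨x, hx, rfl⟩
    rw [Perm.inv_eq_iff_eq, hgf x hx, hf x hx]
    have e2 : p.2 = j := congrArg Prod.snd e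
    rw [e2]

theorem mem_full (hS : Sys S) {ι : Type} {π : Perm (X × ι)} (hE : S E id)
    (h2 : ∀ p : X × ι, p.1 ∉ E → π p = p) (h3 : ∀ p, p.1 ∈ E → Loc S π p) : π ∈ Full hS ι := by
  refine ⟨E, hE, h2, fun p ⟨D, hD, hp⟩ => ?_⟩
  by_cases h : p.1 ∈ E
  · exact h3 p h
  · exact ⟨D \ E, id, p.2, ⟨hp, h⟩, hS.diff hD hE, fun y hy => h2 (y, p.2) hy.2⟩

theorem full_mono {S' : Set X → (X → X) → Prop} (hS : Sys S) (hS' : Sys S')
    (hle : ∀ E f, S E f → S' E f) (ι : Type) : Full hS ι ≤ Full hS' ι := by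
  rintro π ⟨E, h1, h2, h3⟩
  refine mem_full hS' (hle _ _ h1) h2 fun p hp => ?_
  obtain ⟨D, f, j, a, b, c⟩ := h3 p ⟨E, h1, hp⟩
  exact ⟨D, f, j, a, hle _ _ b, c⟩

theorem cyc_mem_full (hS : Sys S) {ι : Type} {π : Perm (X × ι)} {i j l : ι} (hf : S E f)
    (hg : S E g) (hh : S E h) (hij : i ≠ j) (hil : i ≠ l) (hjl : j ≠ l)
    (hc : Cyc π E (tr f i) (tr g j) (tr h l)) : π ∈ Full hS ι := by
  have key : ∀ {f g h : X → X} {i j l : ι}, S E f → S E g → i ≠ j → i ≠ l →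
      Cyc π E (tr f i) (tr g j) (tr h l) → ∀ y, sp S y → Loc S π (y, i) := by
    intro f g h i j l hf hg hij hil hc y ⟨D, hD, hy⟩
    by_cases hyE : y ∈ f '' E
    · obtain ⟨f', h1, h2⟩ := hS.inv hf
      refine ⟨f '' E ∩ f' ⁻¹' E, g ∘ f', j, ⟨hyE, ?_⟩, hS.comp h1 hg, ?_⟩
      · obtain ⟨x, hx, rfl⟩ := hyE
        show f' (f x) ∈ E
        rwa [h2 x hx]
      · rintro _ ⟨⟨x, hx, rfl⟩, _⟩
        simp only [comp_apply, h2 x hx]
        exact hc.ab x hx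
    · refine ⟨D \ f '' E, id, i, ⟨hy, hyE⟩, hS.diff hD (hS.ran hf), fun z hz => ?_⟩
      exact hc.fix _ (fun x hx e => hz.2 ⟨x, hx, congrArg Prod.fst e⟩)
        (fun x _ e => hij (congrArg Prod.snd e).symm) (fun x _ e => hil (congrArg Prod.snd e).symm)
  refine ⟨f '' E ∪ g '' E ∪ h '' E, hS.union (hS.union (hS.ran hf) (hS.ran hg)) (hS.ran hh),
    fun p hp => ?_, fun p hp => ?_⟩
  · exact hc.fix p (fun x hx e => hp (Or.inl (Or.inl ⟨x, hx, congrArg Prod.fst e⟩)))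
      (fun x hx e => hp (Or.inl (Or.inr ⟨x, hx, congrArg Prod.fst e⟩)))
      (fun x hx e => hp (Or.inr ⟨x, hx, congrArg Prod.fst e⟩))
  · obtain ⟨y, m⟩ := p
    by_cases h1 : i = m
    · exact h1 ▸ key hf hg hij hil hc y hp
    by_cases h2 : j = m
    · exact h2 ▸ key hg hh hjl hij.symm hc.rot y hp
    by_cases h3 : l = m
    · exact h3 ▸ key hh hf hil.symm hjl.symm hc.rot.rot y hp
    obtain ⟨D, hD, hy⟩ := hp
    exact ⟨D, id, m, hy, hD, fun z _ => hc.fix_tr (z, m) h1 h2 h3⟩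

abbrev T8 := Fin 8

theorem fresh (l : List T8) (hl : l.length < 8) : ∃ x, x ∉ l := by
  by_contra h
  push Not at h
  have : (Finset.univ : Finset T8) ⊆ l.toFinset := fun x _ => List.mem_toFinset.2 (h x)
  have h1 := Finset.card_le_card this
  have h2 := List.toFinset_card_le l
  simp at h1
  omega

def gens (S : Set X → (X → X) → Prop) : Set (Perm (X × T8)) :=
  {π | ∃ E f i j l, S E f ∧ i ≠ j ∧ i ≠ l ∧ j ≠ l ∧ Cyc π E (tr id i) (tr id j) (tr f l)}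

/-- the alternating group on eight tracks -/
def Gam (S : Set X → (X → X) → Prop) : Subgroup (Perm (X × T8)) := Subgroup.closure (gens S)

theorem gam_le_full (hS : Sys S) : Gam S ≤ Full hS T8 := by
  refine (Subgroup.closure_le _).2 ?_
  rintro π ⟨E, f, i, j, l, h1, h2, h3, h4, h5⟩
  exact cyc_mem_full hS (hS.dom h1) (hS.dom h1) h1 h2 h3 h4 h5

theorem gam_mono {S' : Set X → (X → X) → Prop} (hle : ∀ E f, S E f → S' E f) : Gam S ≤ Gam S' := by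
  refine Subgroup.closure_mono ?_
  rintro π ⟨E, f, i, j, l, h1, h2⟩
  exact ⟨E, f, i, j, l, hle _ _ h1, h2⟩

def M (N : Subgroup (Perm (X × T8))) (E : Set X) (f : X → X) (i : T8) (g : X → X) (j : T8)
    (h : X → X) (l : T8) : Prop :=
  ∀ π, Cyc π E (tr f i) (tr g j) (tr h l) → π ∈ N

variable {N Γ : Subgroup (Perm (X × T8))} {i j l v w : T8}

theorem M.rot (hM : M N E f i g j h l) : M N E g j h l f i :=
  fun π hπ => hM π hπ.rot.rot

theorem M.mv {f' k : X → X} (hM : M N E f i g j h l) (hN : ∀ γ ∈ Γ, ∀ n ∈ N, γ * n * γ⁻¹ ∈ N)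
    (hΓ : M Γ E f i f' v k w) (i1 : InjOn f E) (i2 : InjOn f' E) (i3 : InjOn k E)
    (hij : i ≠ j) (hil : i ≠ l) (hv : v ∉ [i, j, l]) (hw : w ∉ [i, j, l, v]) :
    M N E f' v g j h l := by
  simp only [List.mem_cons, List.not_mem_nil, or_false, not_or] at hv hw
  obtain ⟨σ, hσ⟩ := (tr_tri i1 i2 i3 (Ne.symm hv.1) (Ne.symm hw.1) (Ne.symm hw.2.2.2)).ex
  intro π hπ
  have h1 := (hπ.conj σ⁻¹).congr (a' := tr f i) (b' := tr g j) (c' := tr h l)
    (fun x hx => hσ.inv.ca x hx)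
    (fun x _ => hσ.inv.fix_tr _ hij hw.2.1 hv.2.1)
    (fun x _ => hσ.inv.fix_tr _ hil hw.2.2.1 hv.2.2)
  have := hN σ (hΓ σ hσ) _ (hM _ h1)
  simpa [mul_assoc] using this

def Q (Γ : Subgroup (Perm (X × T8))) (E : Set X) (f : X → X) : Prop :=
  InjOn f E ∧ ∀ i j l, i ≠ j → i ≠ l → j ≠ l → M Γ E id i id j f l

theorem self_conj (Γ : Subgroup (Perm (X × T8))) : ∀ γ ∈ Γ, ∀ n ∈ Γ, γ * n * γ⁻¹ ∈ Γ :=
  fun _ h1 _ h2 => Γ.mul_mem (Γ.mul_mem h1 h2) (Γ.inv_mem h1)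

theorem Q.dom (hQ : Q Γ E f) : Q Γ E id := by
  refine ⟨injOn_id E, fun i j l hij hil hjl => ?_⟩
  obtain ⟨m, hm⟩ := fresh [i, j, l] (by simp)
  obtain ⟨w, hw⟩ := fresh [m, i, j, l] (by simp)
  have hm' := hm
  have hw' := hw
  simp only [List.mem_cons, List.not_mem_nil, or_false, not_or] at hm' hw'
  have h1 := (hQ.2 i j m hij (Ne.symm hm'.1) (Ne.symm hm'.2.1)).rot.rot
  have h2 := (hQ.2 l w m (Ne.symm hw'.2.2.2) (Ne.symm hm'.2.2) hw'.1).rot.rot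
  exact (h1.mv (self_conj Γ) h2 hQ.1 (injOn_id E) (injOn_id E) hm'.1 hm'.2.1
    (by simp [Ne.symm hm'.2.2, hil.symm, hjl.symm]) hw).rot

theorem Q.three (hf : Q Γ E f) (hg : Q Γ E g) (hh : Q Γ E h) (hij : i ≠ j) (hil : i ≠ l)
    (hjl : j ≠ l) : M Γ E f i g j h l := by
  have step : ∀ {f g h : X → X} {a i j l : T8}, Q Γ E f → M Γ E id a g j h l → a ≠ j → a ≠ l →
      i ∉ [a, j, l] → M Γ E f i g j h l := by
    intro f g h a i j l hf hM haj hal hi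
    obtain ⟨w, hw⟩ := fresh [a, j, l, i] (by simp)
    have hw' := hw
    have hi' := hi
    simp only [List.mem_cons, List.not_mem_nil, or_false, not_or] at hw' hi'
    exact hM.mv (self_conj Γ) (hf.2 w a i hw'.1 hw'.2.2.2 (Ne.symm hi'.1)).rot (injOn_id E) hf.1
      (injOn_id E) haj hal hi hw
  obtain ⟨a, ha⟩ := fresh [i, j, l] (by simp)
  obtain ⟨b, hb⟩ := fresh [a, i, j, l] (by simp)
  simp only [List.mem_cons, List.not_mem_nil, or_false, not_or] at ha hb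
  have h1 := (hh.2 a b l (Ne.symm hb.1) ha.2.2 hb.2.2.2).rot
  have h2 := (step (i := j) hg h1 hb.2.2.2 hb.1 (by simp [Ne.symm hb.2.2.1, hjl, Ne.symm ha.2.1])).rot.rot
  exact step hf h2 ha.2.1 ha.2.2 (by simp [Ne.symm ha.1, hij, hil])

theorem q_gam (hS : Sys S) (hf : S E f) : Q (Gam S) E f :=
  ⟨hS.inj hf, fun i j l h1 h2 h3 π hπ => Subgroup.subset_closure ⟨E, f, i, j, l, hf, h1, h2, h3, hπ⟩⟩

theorem m_gam (hS : Sys S) (hf : S E f) (hg : S E g) (hh : S E h) (hij : i ≠ j) (hil : i ≠ l)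
    (hjl : j ≠ l) : M (Gam S) E f i g j h l :=
  (q_gam hS hf).three (q_gam hS hg) (q_gam hS hh) hij hil hjl

theorem M.all (hS : Sys S) (hN : ∀ γ ∈ Gam S, ∀ n ∈ N, γ * n * γ⁻¹ ∈ N)
    (hM : M N E f i g j h l) (hf : S E f) (hg : S E g) (hh : S E h) (hij : i ≠ j) (hil : i ≠ l)
    (hjl : j ≠ l) {f' g' h' : X → X} {i' j' l' : T8} (hf' : S E f') (hg' : S E g') (hh' : S E h')
    (hij' : i' ≠ j') (hil' : i' ≠ l') (hjl' : j' ≠ l') : M N E f' i' g' j' h' l' := by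
  have step : ∀ {f f' g h : X → X} {i j l v : T8}, S E f → S E f' → M N E f i g j h l → i ≠ j →
      i ≠ l → v ∉ [i, j, l] → M N E g j h l f' v := by
    intro f f' g h i j l v hf hf' hM hij hil hv
    obtain ⟨w, hw⟩ := fresh [i, j, l, v] (by simp)
    have hw' := hw
    have hv' := hv
    simp only [List.mem_cons, List.not_mem_nil, or_false, not_or] at hw' hv'
    exact (hM.mv hN (m_gam hS hf hf' hf (Ne.symm hv'.1) (Ne.symm hw'.1) (Ne.symm hw'.2.2.2))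
      (hS.inj hf) (hS.inj hf') (hS.inj hf) hij hil hv hw).rot
  obtain ⟨a, ha⟩ := fresh [i, j, l, i', j', l'] (by simp)
  obtain ⟨b, hb⟩ := fresh [a, j, l, i', j', l'] (by simp)
  obtain ⟨c, hc⟩ := fresh [a, b, l, i', j', l'] (by simp)
  simp only [List.mem_cons, List.not_mem_nil, or_false, not_or] at ha hb hc
  have h1 := step hf hf hM hij hil (v := a) (by simp [ha])
  have h2 := step hg hf h1 hjl (Ne.symm ha.2.1) (v := b) (by simp [hb])
  have h3 := step hh hf h2 (Ne.symm ha.2.2.1) (Ne.symm hb.2.2.1) (v := c) (by simp [hc])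
  have h4 := step hf hf' h3 (Ne.symm hb.1) (Ne.symm hc.1) (v := i')
    (by simp [Ne.symm ha.2.2.2.1, Ne.symm hb.2.2.2.1, Ne.symm hc.2.2.2.1])
  have h5 := step hf hg' h4 (Ne.symm hc.2.1) hb.2.2.2.1 (v := j')
    (by simp [hij'.symm, Ne.symm hb.2.2.2.2.1, Ne.symm hc.2.2.2.2.1])
  exact step hf hh' h5 hc.2.2.2.1 hc.2.2.2.2.1 (v := l')
    (by simp [hil'.symm, hjl'.symm, Ne.symm hc.2.2.2.2.2])

theorem M.union (h1 : M Γ E f i g j h l) (h2 : M Γ E' f i g j h l) (hd : Disjoint E E')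
    (t : Tri (E ∪ E') (tr f i) (tr g j) (tr h l)) : M Γ (E ∪ E') f i g j h l := by
  intro π hπ
  obtain ⟨σ, hσ⟩ := (t.mono subset_union_left).ex
  obtain ⟨τ, hτ⟩ := (t.mono subset_union_right).ex
  rw [hπ.uniq (hσ.mul hτ hd t)]
  exact Γ.mul_mem (h1 σ hσ) (h2 τ hτ)

theorem M.empty : M Γ ∅ f i g j h l := fun π hπ => by
  rw [hπ.uniq cyc_empty]
  exact Γ.one_mem

end Pool.Agent.Lib.MP_1d2f05_al
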