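import Pool.Agent.Lib.MP_1d2f05_al.Base
import Pool.Agent.Lib.MP_1d2f05_al.Abel

set_option autoImplicit false

namespace Pool.Agent.Lib.MP_1d2f05_al

open Function Equiv Set Filter Topology

abbrev CS := ℕ → Bool

variable {A : (G : Type) → [Group G] → Prop} {G : Subgroup (CS ≃ₜ CS)} {U V : Set CS}

theorem exists_tracks (hmin : ∀ x : CS, Dense {y : CS | ∃ g ∈ G, g x = y}) (hU : IsClopen U)
    (hne : U.Nonempty) : ∃ (V : Set CS) (g : T8 → CS ≃ₜ CS), IsClopen V ∧ V.Nonempty ∧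
      (∀ i, g i ∈ G) ∧ (∀ i, MapsTo (g i) V U) ∧
      ∀ i j, ∀ x ∈ V, ∀ y ∈ V, g i x = g j y → i = j := by
  obtain ⟨x, hx⟩ := hne
  have ht : Tendsto (fun k => update x k (!x k)) atTop (𝓝 x) := by
    rw [tendsto_pi_nhds]
    intro i
    refine tendsto_const_nhds.congr' ?_
    filter_upwards [eventually_gt_atTop i] with k hk
    rw [update_of_ne hk.ne]
  obtain ⟨N, hN⟩ := eventually_atTop.1 (ht.eventually (hU.isOpen.mem_nhds hx))
  let W : T8 → Set CS := fun i =>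
    U ∩ ⋂ j : T8, {y | y (N + j) = update x (N + i) (!x (N + i)) (N + j)}
  have hW : ∀ i, IsClopen (W i) := fun i => hU.inter (isClopen_iInter_of_finite fun j =>
    (isClopen_discrete {update x (N + i) (!x (N + i)) (N + j)}).preimage (continuous_apply _))
  have hg : ∀ i, ∃ g ∈ G, g x ∈ W i := by
    intro i
    obtain ⟨y, ⟨g, h1, rfl⟩, h2⟩ := (hmin x).exists_mem_open (hW i).isOpen
      ⟨_, hN (N + i) (by omega), mem_iInter.2 fun _ => rfl⟩
    exact ⟨g, h1, h2⟩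
  choose g h1 h2 using hg
  refine ⟨⋂ i, g i ⁻¹' W i, g, isClopen_iInter_of_finite fun i => (hW i).preimage (g i).continuous,
    ⟨x, mem_iInter.2 h2⟩, h1, fun i y hy => (mem_iInter.1 hy i).1, fun i j y hy z hz e => ?_⟩
  by_contra hij
  have a1 : g i y (N + i) = _ := mem_iInter.1 (mem_iInter.1 hy i).2 i
  have a2 : g j z (N + i) = _ := mem_iInter.1 (mem_iInter.1 hz j).2 i
  rw [update_self, e, a2, update_of_ne (fun h => hij (Fin.ext (by omega)))] at a1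
  simp at a1

def S0 (G : Subgroup (CS ≃ₜ CS)) (V : Set CS) (E : Set CS) (f : CS → CS) : Prop :=
  IsClopen E ∧ E ⊆ V ∧ ∃ g ∈ G, EqOn f g E ∧ MapsTo g E V

theorem clopen_image {E : Set CS} (hE : IsClopen E) (g : CS ≃ₜ CS) : IsClopen (g '' E) :=
  ⟨g.isClosedMap _ hE.1, g.isOpenMap _ hE.2⟩

theorem s0_id {E : Set CS} (hE : IsClopen E) (hV : E ⊆ V) : S0 G V E id :=
  ⟨hE, hV, 1, G.one_mem, fun _ _ => rfl, hV⟩

theorem sys_S0 : Sys (S0 G V) where
  inj := fun ⟨_, _, g, _, h4, _⟩ => g.injective.injOn.congr h4.symm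
  congr := fun ⟨h1, h2, g, h3, h4, h5⟩ e => ⟨h1, h2, g, h3, e.symm.trans h4, h5⟩
  dom := fun ⟨h1, h2, _⟩ => s0_id h1 h2
  inv := by
    rintro E f ⟨h1, h2, g, h3, h4, h5⟩
    rw [h4.image_eq]
    refine ⟨g.symm, ⟨clopen_image h1 g, h5.image_subset, g⁻¹, G.inv_mem h3, fun _ _ => rfl, ?_⟩,
      fun x hx => by rw [h4 hx]; simp⟩
    rintro _ ⟨x, hx, rfl⟩
    simpa using h2 hx
  comp := by
    rintro E f E' f' ⟨h1, h2, g, h3, h4, h5⟩ ⟨a1, a2, g', a3, a4, a5⟩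
    have e : E ∩ f ⁻¹' E' = E ∩ g ⁻¹' E' := by
      ext x
      exact and_congr_right fun hx => by simp [h4 hx]
    refine ⟨e ▸ h1.inter (a1.preimage g.continuous), fun x hx => h2 hx.1, g' * g, G.mul_mem a3 h3,
      fun x hx => ?_, fun x hx => ?_⟩
    · simp only [comp_apply, Homeomorph.mul_apply]
      rw [a4 hx.2, h4 hx.1]
    · rw [e] at hx
      exact a5 hx.2
  diff := fun ⟨h1, h2, g, h3, h4, h5⟩ ⟨a1, _⟩ => ⟨h1.diff a1, fun _ hx => h2 hx.1, g, h3,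
    h4.mono sdiff_subset, h5.mono_left sdiff_subset⟩
  union := fun ⟨h1, h2, _⟩ ⟨a1, a2, _⟩ => s0_id (h1.union a1) (union_subset h2 a2)
  empty := s0_id isClopen_empty (empty_subset _)
  cpt F h1 h2 h3 := by
    obtain ⟨t, a1, a2, a3⟩ := h1.1.1.isCompact.elim_finite_subcover_image (b := F) (c := id)
      (fun D hD => (h2 D hD).1.2) (by rwa [sUnion_eq_biUnion] at h3)
    exact ⟨t, a1, a2, by rwa [sUnion_eq_biUnion]⟩

theorem embed_full (hA : Cls A) (hmin : ∀ x : CS, Dense {y : CS | ∃ g ∈ G, g x = y})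
    (hV : IsClopen V) (hne : V.Nonempty)
    (hF : ∀ n, A (Full (sys_S0 (G := G) (V := V)) (Fin n))) : A G := by
  classical
  have hc : ∀ x : CS, ∃ g : G, g.1 x ∈ V := by
    intro x
    obtain ⟨y, ⟨g, h1, rfl⟩, h2⟩ := (hmin x).exists_mem_open hV.isOpen hne
    exact ⟨⟨g, h1⟩, h2⟩
  obtain ⟨t, ht⟩ := isCompact_univ.elim_finite_subcover (fun g : G => g.1 ⁻¹' V)
    (fun g => hV.isOpen.preimage g.1.continuous) fun x _ => mem_iUnion.2 (hc x)
  let n := t.card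
  let h : Fin n → G := fun i => (t.equivFin.symm i).1
  have hh : ∀ x : CS, (Finset.univ.filter fun i => (h i).1 x ∈ V).Nonempty := by
    intro x
    obtain ⟨g, hg, hx⟩ := mem_iUnion₂.1 (ht (mem_univ x))
    exact ⟨t.equivFin ⟨g, hg⟩, by simpa [h] using hx⟩
  let j : CS → Fin n := fun x => Finset.min' _ (hh x)
  have hj : ∀ x, (h (j x)).1 x ∈ V := fun x => (Finset.mem_filter.1 (Finset.min'_mem _ (hh x))).2
  have hcl : ∀ i, IsClopen {x | j x = i} := by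
    intro i
    have : {x | j x = i} = (h i).1 ⁻¹' V ∩ ⋂ k : {k // k < i}, ((h k).1 ⁻¹' V)ᶜ := by
      ext x
      constructor
      · rintro rfl
        refine ⟨hj x, mem_iInter.2 fun k hk => ?_⟩
        exact absurd (Finset.min'_le _ k.1 (by simpa using hk)) (not_le.2 k.2)
      · rintro ⟨h1, h2⟩
        refine le_antisymm (Finset.min'_le _ i (by simpa using h1)) (not_lt.1 fun hlt => ?_)
        exact mem_iInter.1 h2 ⟨_, hlt⟩ (hj x)
    rw [this]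
    exact (hV.preimage (h i).1.continuous).inter
      (isClopen_iInter_of_finite fun k => (hV.preimage (h k).1.continuous).compl)
  let e : CS ↪ CS × Fin n := ⟨fun x => ((h (j x)).1 x, j x), fun x y hxy => by
    have h1 : j x = j y := (Prod.ext_iff.1 hxy).2
    have h2 : (h (j x)).1 x = (h (j y)).1 y := (Prod.ext_iff.1 hxy).1
    rw [h1] at h2
    exact (h (j y)).1.injective h2⟩
  let ρ : G →* Perm CS :=
    { toFun := fun g => g.1.toEquiv, map_one' := rfl, map_mul' := fun _ _ => rfl }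
  have hρ : Injective ρ := fun a b hab => Subtype.ext (Homeomorph.toEquiv_injective hab)
  let ψ := (Perm.viaEmbeddingHom e).comp ρ
  have hψ : ∀ g, ψ g ∈ Full (sys_S0 (G := G) (V := V)) (Fin n) := by
    intro g
    have h1 : ∀ x, ψ g (e x) = e (g.1 x) := fun x => Perm.viaEmbedding_apply (ρ g) e x
    have h2 : ∀ p, p ∉ range e → ψ g p = p := fun p hp =>
      Perm.viaEmbedding_apply_of_notMem (ρ g) e p hp
    refine mem_full _ (s0_id hV subset_rfl) (fun p hp => h2 p ?_) fun p hp => ?_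
    · rintro ⟨x, rfl⟩
      exact hp (hj x)
    · by_cases hr : p ∈ range e
      · obtain ⟨z, rfl⟩ := hr
        let k := j (g.1 z)
        let D := {x | j x = j z} ∩ g.1 ⁻¹' {x | j x = k}
        have hD : IsClopen D := (hcl _).inter ((hcl _).preimage g.1.continuous)
        refine ⟨(h (j z)).1 '' D, (h k * g * (h (j z))⁻¹).1, k, ⟨z, ⟨rfl, rfl⟩, rfl⟩,
          ⟨clopen_image hD _, ?_, _, (h k * g * (h (j z))⁻¹).2, fun _ _ => rfl, ?_⟩, ?_⟩
        · rintro _ ⟨x, hx, rfl⟩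
          rw [← show j x = j z from hx.1]
          exact hj x
        · rintro _ ⟨x, hx, rfl⟩
          have := hj (g.1 x)
          rw [show j (g.1 x) = k from hx.2] at this
          simpa using this
        · rintro _ ⟨x, hx, rfl⟩
          have e1 : ((h (j z)).1 x, (e z).2) = e x := by
            rw [← show j x = j z from hx.1]
            exact Prod.ext rfl (show j z = j x from hx.1.symm)
          rw [e1, h1]
          have e2 : j (g.1 x) = k := hx.2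
          refine Prod.ext ?_ e2
          show (h (j (g.1 x))).1 (g.1 x) = _
          rw [e2]
          simp
      · refine ⟨V \ (h p.2).1 '' {x | j x = p.2}, id, p.2, ⟨hp, ?_⟩,
          s0_id (hV.diff (clopen_image (hcl _) _)) sdiff_subset, fun y hy => h2 _ ?_⟩
        · rintro ⟨x, h3, h4⟩
          refine hr ⟨x, Prod.ext ?_ h3⟩
          rw [← h4, ← show j x = p.2 from h3]
          rfl
        · rintro ⟨x, h3⟩
          have h4 : j x = p.2 := (Prod.ext_iff.1 h3).2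
          exact hy.2 ⟨x, h4, by rw [← h4]; exact (Prod.ext_iff.1 h3).1⟩
  refine hA.sub _ _ (ψ.codRestrict _ hψ) (fun a b hab => ?_) (hF n)
  exact hρ (Perm.viaEmbeddingHom_injective e (congrArg Subtype.val hab))

theorem piece (hfull : ∀ h : CS ≃ₜ CS, (∀ x, ∃ V ∈ 𝓝 x, ∃ g ∈ G, ∀ y ∈ V, h y = g y) → h ∈ G)
    (σ : Perm CS) (hσ : ∀ x, ∃ V ∈ 𝓝 x, ∃ g ∈ G, ∀ y ∈ V, σ y = g y) :
    ∃ a ∈ G, ∀ x, a x = σ x := by
  have hc : Continuous σ := by
    rw [continuous_iff_continuousAt]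
    intro x
    obtain ⟨V, h1, g, _, h2⟩ := hσ x
    exact g.continuous.continuousAt.congr (Filter.mem_of_superset h1 fun y hy => (h2 y hy).symm)
  exact ⟨hc.homeoOfEquivCompactToT2, hfull _ hσ, fun _ => rfl⟩

theorem exists_corr
    (hfull : ∀ h : CS ≃ₜ CS, (∀ x, ∃ V ∈ 𝓝 x, ∃ g ∈ G, ∀ y ∈ V, h y = g y) → h ∈ G)
    {H : Subgroup (CS ≃ₜ CS)} (hH : ∀ g, g ∈ H ↔ (g ∈ G ∧ ∀ x ∉ U, g x = x))
    (g : T8 → CS ≃ₜ CS) (h1 : ∀ i, g i ∈ G) (h2 : ∀ i, MapsTo (g i) V U)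
    (h3 : ∀ i j, ∀ x ∈ V, ∀ y ∈ V, g i x = g j y → i = j) :
    ∃ R : Subgroup (H × Perm (CS × T8)), (∀ γ ∈ Gam (S0 G V), ∃ a, (a, γ) ∈ R) ∧
      (∀ q ∈ R, q.2 ∈ Gam (S0 G V)) ∧ ∀ γ, (1, γ) ∈ R → γ = 1 := by
  have hle := gam_le_full (sys_S0 (G := G) (V := V))
  have hinv : Inv (S0 G V) V := fun E f ⟨_, a2, k, _, a4, a5⟩ x hx =>
    ⟨fun _ => a4 hx ▸ a5 hx, fun _ => a2 hx⟩
  have hpres := fun γ (hγ : γ ∈ Gam (S0 G V)) => full_pres sys_S0 hinv (hle hγ)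
  have hκ : ∀ p q : CS × T8, p.1 ∈ V → q.1 ∈ V → g p.2 p.1 = g q.2 q.1 → p = q := by
    intro p q hp hq e
    have := h3 _ _ _ hp _ hq e
    rw [this] at e
    exact Prod.ext ((g _).injective e) this
  let R : Subgroup (H × Perm (CS × T8)) :=
    { carrier := {q | q.2 ∈ Gam (S0 G V) ∧
        ∀ p : CS × T8, p.1 ∈ V → q.1.1 (g p.2 p.1) = g (q.2 p).2 (q.2 p).1}
      one_mem' := ⟨Subgroup.one_mem _, fun _ _ => rfl⟩
      mul_mem' := fun {a b} ha hb => ⟨Subgroup.mul_mem _ ha.1 hb.1, fun p hp => by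
        show a.1.1 (b.1.1 _) = _
        rw [hb.2 p hp, ha.2 _ ((hpres _ hb.1 p).2 hp)]
        rfl⟩
      inv_mem' := fun {a} ha => ⟨Subgroup.inv_mem _ ha.1, fun p hp => by
        have := ha.2 _ ((hpres _ (Subgroup.inv_mem _ ha.1) p).2 hp)
        show a.1.1.symm _ = g (a.2⁻¹ p).2 (a.2⁻¹ p).1
        rw [Homeomorph.symm_apply_eq, this]
        simp⟩ }
  refine ⟨R, fun γ hγ => ?_, fun q hq => hq.1, fun γ hγ => ?_⟩
  · have : Gam (S0 G V) ≤ R.map (MonoidHom.snd _ _) := by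
      refine (Subgroup.closure_le _).2 ?_
      rintro π hπ
      obtain ⟨E, f, i, j, l, ⟨a1, a2, k, a3, a4, a5⟩, b1, b2, b3, hc⟩ := id hπ
      have hc' : Cyc π E (tr id i) (tr id j) (tr k l) :=
        hc.congr (fun _ _ => rfl) (fun _ _ => rfl) fun x hx => by simp [a4 hx]
      have t : Tri E (g i) (g j) ⇑(g l * k) :=
        ⟨(g i).injective.injOn, (g j).injective.injOn, (g l * k).injective.injOn,
          fun x hx y hy e => b1 (h3 _ _ _ (a2 hx) _ (a2 hy) e),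
          fun x hx y hy e => b2 (h3 _ _ _ (a2 hx) _ (a5 hy) e),
          fun x hx y hy e => b3 (h3 _ _ _ (a2 hx) _ (a5 hy) e)⟩
      obtain ⟨σ, hσ⟩ := t.ex
      have key : ∀ u v : CS ≃ₜ CS, u ∈ G → v ∈ G → (∀ x ∈ E, σ (u x) = v x) → ∀ x ∈ E,
          ∃ V ∈ 𝓝 (u x), ∃ g ∈ G, ∀ y ∈ V, σ y = g y := by
        intro u v hu hv huv x hx
        refine ⟨u '' E, (clopen_image a1 u).isOpen.mem_nhds ⟨x, hx, rfl⟩, v * u⁻¹,
          G.mul_mem hv (G.inv_mem hu), ?_⟩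
        rintro _ ⟨y, hy, rfl⟩
        rw [huv y hy]
        simp
      have hk := G.mul_mem (h1 l) a3
      obtain ⟨a, c1, c2⟩ := piece hfull σ fun z => by
        rcases cyc_cases E (g i) (g j) ⇑(g l * k) z with
          ⟨x, hx, rfl⟩ | ⟨x, hx, rfl⟩ | ⟨x, hx, rfl⟩ | ⟨d1, d2, d3⟩
        · exact key _ _ (h1 i) (h1 j) hσ.ab x hx
        · exact key _ _ (h1 j) hk hσ.bc x hx
        · exact key _ _ hk (h1 i) hσ.ca x hx
        · refine ⟨(g i '' E ∪ g j '' E ∪ ⇑(g l * k) '' E)ᶜ, (((clopen_image a1 _).union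
            (clopen_image a1 _)).union (clopen_image a1 _)).compl.isOpen.mem_nhds ?_, 1, G.one_mem,
            fun y hy => hσ.fix y (fun x hx e => hy (Or.inl (Or.inl ⟨x, hx, e⟩)))
              (fun x hx e => hy (Or.inl (Or.inr ⟨x, hx, e⟩))) fun x hx e => hy (Or.inr ⟨x, hx, e⟩)⟩
          rintro ((⟨x, hx, e⟩ | ⟨x, hx, e⟩) | ⟨x, hx, e⟩)
          exacts [d1 x hx e, d2 x hx e, d3 x hx e]
      have haH : a ∈ H := by
        refine (hH a).2 ⟨c1, fun x hx => ?_⟩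
        rw [c2]
        exact hσ.fix x (fun y hy e => hx (e ▸ h2 i (a2 hy))) (fun y hy e => hx (e ▸ h2 j (a2 hy)))
          fun y hy e => hx (e ▸ h2 l (a5 hy))
      refine ⟨(⟨a, haH⟩, π), ⟨Subgroup.subset_closure hπ, fun p hp => ?_⟩, rfl⟩
      show a _ = g (π p).2 (π p).1
      rw [c2]
      rcases cyc_cases E (tr id i) (tr id j) (tr k l) p with
        ⟨x, hx, rfl⟩ | ⟨x, hx, rfl⟩ | ⟨x, hx, rfl⟩ | ⟨d1, d2, d3⟩
      · rw [hc'.ab x hx]; exact hσ.ab x hx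
      · rw [hc'.bc x hx]; exact hσ.bc x hx
      · rw [hc'.ca x hx]; exact hσ.ca x hx
      · rw [hc'.fix p d1 d2 d3]
        exact hσ.fix _ (fun x hx e => d1 x hx (hκ (x, i) p (a2 hx) hp e))
          (fun x hx e => d2 x hx (hκ (x, j) p (a2 hx) hp e))
          fun x hx e => d3 x hx (hκ (k x, l) p (a5 hx) hp e)
    obtain ⟨q, hq, rfl⟩ := this hγ
    exact ⟨q.1, hq⟩
  · ext1 p
    by_cases hp : p.1 ∈ V
    · exact (hκ p (γ p) hp ((hpres _ hγ.1 p).2 hp) (hγ.2 p hp)).symm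
    · obtain ⟨E, a1, a2, _⟩ := hle hγ.1
      exact a2 p fun h => hp (a1.2.1 h)

theorem transfer (hA : Cls A) (hmin : ∀ x : CS, Dense {y : CS | ∃ g ∈ G, g x = y})
    (hfull : ∀ h : CS ≃ₜ CS, (∀ x, ∃ V ∈ 𝓝 x, ∃ g ∈ G, ∀ y ∈ V, h y = g y) → h ∈ G)
    (hU : IsClopen U) (hne : U.Nonempty)
    {H : Subgroup (CS ≃ₜ CS)} (hH : ∀ g, g ∈ H ↔ (g ∈ G ∧ ∀ x ∉ U, g x = x))
    (h1 : Gen Omits H) (h2 : A H) : A G := by
  obtain ⟨V, g, a1, a2, a3, a4, a5⟩ := exists_tracks hmin hU hne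
  obtain ⟨R, b1, b2, b3⟩ := exists_corr hfull hH g a3 a4 a5
  refine embed_full hA hmin a1 a2 (main_ind hA h1 _ sys_S0 ⟨R, b1, b2, fun γ hγ => ?_⟩
    (hA.corr _ ⊥ R h2 hA.bot b1 fun γ hγ => Subgroup.mem_bot.2 (b3 γ hγ)))
  rw [b3 γ hγ]
  exact fun D i x _ hx => ⟨hx, rfl⟩

end Pool.Agent.Lib.MP_1d2f05_al
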